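import Pool.Agent.H65.TS.HistFP

set_option autoImplicit false

/-!
# Finite modifications of NP sets, and some more programs
-/

namespace Pool.Agent.H65.TS

open Pool.Agent.H88.RO Pool.Agent.H88.RO.Tr

variable {O : List Bool → Bool}

open Classical in
theorem FP_small (l0 : ℕ) : ∀ (L : Set (List Bool)) {F : Tr → Tr}, FP O F →
    FP O (fun v => bit (decide (dec (F v) ∈ L ∧ len (F v) < l0))) := by
  induction l0 with
  | zero =>
    intro L F _
    have : (fun v => bit (decide (dec (F v) ∈ L ∧ len (F v) < 0))) = fun _ => leaf := by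
      funext v
      simp [bit]
    rw [this]
    exact FP.leaf'
  | succ l0 ih =>
    intro L F hF
    have : (fun v => bit (decide (dec (F v) ∈ L ∧ len (F v) < l0 + 1))) = fun v =>
        cs (F v) (bit (decide ([] ∈ L))) (cs (fst (F v))
          (bit (decide (dec (snd (F v)) ∈ {w | false :: w ∈ L} ∧ len (snd (F v)) < l0)))
          (bit (decide (dec (snd (F v)) ∈ {w | true :: w ∈ L} ∧ len (snd (F v)) < l0)))) := by
      funext v
      cases F v with
      | leaf => simp [Tr.dec, len]
      | node a b =>
        rw [cs_neg _ _ (by simp)]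
        simp only [fst_node, snd_node]
        by_cases ha : a = leaf
        · subst ha
          rw [cs_leaf]
          simp [Tr.dec, len]
        · rw [cs_neg _ _ ha]
          simp [Tr.dec, len, ha]
    rw [this]
    exact FP.cs' hF (FP.const' _) (FP.cs' (FP.fst' hF) (ih _ (FP.snd' hF)) (ih _ (FP.snd' hF)))

open Classical in
theorem InNP.of_large {L : Set (List Bool)} (l0 : ℕ) {R : List Bool → List Bool → Bool}
    {p : Polynomial ℕ} (hR : PolyTimeRel O R)
    (h : ∀ x : List Bool, l0 ≤ x.length →
      (x ∈ L ↔ ∃ y : List Bool, y.length ≤ p.eval x.length ∧ R x y = true)) : InNP O L := by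
  refine ⟨fun x y => if x.length < l0 then decide (x ∈ L) else R x y, p, ?_, fun x => ?_⟩
  · have h1 : FP O (fun v => fst v) := FP.fst' FP.id'
    have h2 : FP O (fun v => snd v) := FP.snd' FP.id'
    have h3 := FP.cs' (FP.dropU' (FP.const' (num l0)) (FP.node' FP.leaf' h1))
      (FP_small l0 L h1) (FP.rel hR h1 h2)
    refine polyTimeRel_of_FP h3 (fun x y => ?_)
    simp only [fst_node, snd_node, dec_enc, len_enc]
    by_cases hx : x.length < l0
    · rw [cs_pos _ _ (by rw [dropU_eq_leaf, len_num]; simp only [len, len_enc]; omega),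
        bit_ne_leaf, if_pos hx]
      simp [hx]
    · rw [cs_neg _ _ (by rw [ne_eq, dropU_eq_leaf, len_num]; simp only [len, len_enc]; omega),
        bit_ne_leaf, if_neg hx]
  · by_cases hx : x.length < l0
    · simp only [if_pos hx, decide_eq_true_eq]
      constructor
      · intro hxL; exact ⟨[], by simp, hxL⟩
      · rintro ⟨_, _, hxL⟩; exact hxL
    · simp only [if_neg hx]
      exact h x (by omega)

/-! ### constant prefixes, zeros, comparison -/

/-- put a constant string in front -/
def preT (l : List Bool) (t : Tr) : Tr := l.foldr (fun b t => node (bit b) t) t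

theorem preT_enc (l w : List Bool) : preT l (enc w) = enc (l ++ w) := by
  induction l with
  | nil => rfl
  | cons b l ih => simp only [preT, List.foldr_cons, List.cons_append, enc] at ih ⊢; rw [ih]

theorem FP.preT' (l : List Bool) {F : Tr → Tr} (hF : FP O F) : FP O (fun v => preT l (F v)) := by
  induction l with
  | nil => exact hF
  | cons b l ih => exact FP.node' (FP.const' (bit b)) ih

theorem addU_enc (a : Tr) (w : List Bool) :
    addU a (enc w) = enc (List.replicate (len a) false ++ w) := by
  have h : ∀ n, (fun s => node leaf s)^[n] (enc w) = enc (List.replicate n false ++ w) := by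
    intro n
    induction n with
    | zero => simp
    | succ n ih => rw [Function.iterate_succ_apply', ih]; rfl
  exact h _

theorem onesPre_leaf (a : Tr) : onesPre a leaf = enc (List.replicate (len a) true) := by
  have := onesPre_enc a []
  rw [List.append_nil] at this
  exact this

/-- comparison of lengths -/
def eqL (a b : Tr) : Tr := cs (dropU a b) (cs (dropU b a) tt leaf) leaf

theorem eqL_spec (a b : Tr) : eqL a b ≠ leaf ↔ len a = len b := by
  unfold eqL
  by_cases h1 : len b ≤ len a
  · rw [cs_pos _ _ (dropU_eq_leaf.mpr h1)]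
    by_cases h2 : len a ≤ len b
    · rw [cs_pos _ _ (dropU_eq_leaf.mpr h2)]
      simp only [ne_eq, tt_ne, not_false_eq_true, true_iff]
      omega
    · rw [cs_neg _ _ (fun h => h2 (dropU_eq_leaf.mp h))]
      simp only [ne_eq, not_true_eq_false, false_iff]
      omega
  · rw [cs_neg _ _ (fun h => h1 (dropU_eq_leaf.mp h))]
    simp only [ne_eq, not_true_eq_false, false_iff]
    omega

theorem FP.eqL' {F G : Tr → Tr} (hF : FP O F) (hG : FP O G) : FP O (fun v => eqL (F v) (G v)) :=
  FP.cs' (FP.dropU' hF hG) (FP.cs' (FP.dropU' hG hF) (FP.const' _) FP.leaf') FP.leaf'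

/-- test for a bounded relation -/
def qT (Q : List Bool → List Bool → Bool) (P : Tr → Tr) (σ t : Tr) : Tr :=
  cs (dropU (P σ) t) (bit (Q (dec σ) (dec t))) leaf

theorem qT_spec {Q : List Bool → List Bool → Bool} {P : Tr → Tr} {p : Polynomial ℕ}
    (hP : ∀ v, P v = num (p.eval (len v))) (σ t : Tr) :
    qT Q P σ t ≠ leaf ↔ (dec t).length ≤ p.eval (dec σ).length ∧ Q (dec σ) (dec t) = true := by
  unfold qT
  rw [length_dec, length_dec]
  by_cases h : len t ≤ p.eval (len σ)
  · rw [cs_pos _ _ (by rw [dropU_eq_leaf, hP, len_num]; exact h), bit_ne_leaf]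
    simp [h]
  · rw [cs_neg _ _ (by rw [ne_eq, dropU_eq_leaf, hP, len_num]; exact h)]
    simp [h]

theorem FP.qT' {Q : List Bool → List Bool → Bool} (hQ : PolyTimeRel O Q) {P : Tr → Tr}
    (hP : ∀ F, FP O F → FP O (fun v => P (F v))) {F G : Tr → Tr} (hF : FP O F) (hG : FP O G) :
    FP O (fun v => qT Q P (F v) (G v)) :=
  FP.cs' (FP.dropU' (hP _ hF) hG) (FP.rel hQ hF hG) FP.leaf'

/-! ### enumerations -/

instance : Countable Tr :=
  Function.Injective.countable (f := rpn) (fun a b h => by
    have := congrArg decode h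
    rwa [decode_rpn, decode_rpn] at this)

instance : Countable (Polynomial ℕ) := by
  rw [← Cardinal.mk_le_aleph0_iff]
  exact Polynomial.cardinalMk_le_max.trans (by simp)

instance : Countable Cand :=
  Function.Injective.countable (f := fun κ : Cand => (κ.i, κ.k, κ.n)) (fun a b h => by
    cases a; cases b; simp only [Prod.mk.injEq] at h; obtain ⟨rfl, rfl, rfl⟩ := h; rfl)

instance : Nonempty Cand := ⟨⟨0, 0, 0⟩⟩

theorem exists_enum_cand : ∃ e : ℕ → Cand, Function.Surjective e :=
  exists_surjective_nat Cand

theorem exists_enum_red : ∃ e : ℕ → Tr × Tr × Polynomial ℕ × Polynomial ℕ,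
    Function.Surjective e := exists_surjective_nat _

end Pool.Agent.H65.TS
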