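import Pool.Agent.H65.TS.Pos

set_option autoImplicit false

/-!
# A tally oracle relative to which there is a complete search problem
-/

namespace Pool.Agent.H65.TS

open Pool.Agent.H88.RO Pool.Agent.H88.RO.Tr

/-- all inputs of length `n` have solutions accepted by machine `i` with clock `K` and length
bound `N` -/
def Totl (O : List Bool → Bool) (K N i n : ℕ) : Prop :=
  ∀ x : List Bool, x.length = n → ∃ y, Usol O i K N x y

theorem Totl_congr {O O' : List Bool → Bool} {K N i n : ℕ}
    (h : ∀ q : List Bool, q.length ≤ K → O' q = O q) : Totl O' K N i n ↔ Totl O K N i n := by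
  unfold Totl
  simp only [Usol_congr h]

/-- the position of the bit saying whether `Totl` holds -/
def cde (K N i n : ℕ) : ℕ := Nat.pair K (Nat.pair N (Nat.pair i n)) + 1

theorem cde_inj {K N i n K' N' i' n' : ℕ} (h : cde K N i n = cde K' N' i' n') :
    K = K' ∧ N = N' ∧ i = i' ∧ n = n' := by
  simp only [cde, Nat.add_right_cancel_iff, Nat.pair_eq_pair] at h
  exact h

theorem lt_cde (K N i n : ℕ) : K < cde K N i n := by
  have := Nat.left_le_pair K (Nat.pair N (Nat.pair i n))
  rw [cde]
  omega

open Classical in
/-- the self-referential tally oracle -/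
noncomputable def slf (B : List Bool → Bool) (m : ℕ) : Bool :=
  decide (∃ K N i n, m = cde K N i n ∧
    Totl (join (tal (fun k => if _ : k < m then slf B k else false)) B) K N i n)
termination_by m

theorem join_tal_congr {f g : ℕ → Bool} (B : List Bool → Bool) {q : List Bool}
    (h : ∀ k, k < q.length → f k = g k) : join (tal f) B q = join (tal g) B q := by
  cases q with
  | nil => rfl
  | cons b q =>
    cases b with
    | true => rfl
    | false =>
      have h1 : tal f q = tal g q := tal_congr (h _ (by simp))
      exact h1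

open Classical in
theorem slf_spec (B : List Bool → Bool) (K N i n : ℕ) :
    slf B (cde K N i n) = true ↔ Totl (join (tal (slf B)) B) K N i n := by
  have key : Totl (join (tal (fun k => if _ : k < cde K N i n then slf B k else false)) B) K N i n
      ↔ Totl (join (tal (slf B)) B) K N i n := by
    apply Totl_congr
    intro q hq
    apply join_tal_congr
    intro k hk
    have := lt_cde K N i n
    rw [dif_pos (by omega)]
  rw [← key, slf, decide_eq_true_eq]
  constructor
  · rintro ⟨K', N', i', n', h1, h2⟩
    obtain ⟨rfl, rfl, rfl, rfl⟩ := cde_inj h1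
    exact h2
  · intro h
    exact ⟨K, N, i, n, rfl, h⟩

/-! ### programs -/

/-- the pairing function in unary -/
def pairU (a b : Tr) : Tr :=
  cs (dropU a b) (addU (mulU a a) (addU a (ulen b))) (addU (mulU b b) (ulen a))

theorem pairU_eq (a b : Tr) : pairU a b = num (Nat.pair (len a) (len b)) := by
  unfold pairU Nat.pair
  simp only [ulen_eq, mulU_eq, addU_num', len_num]
  by_cases h : len b ≤ len a
  · rw [cs_pos _ _ (dropU_eq_leaf.mpr h), if_neg (by omega)]
    congr 1; ring
  · rw [cs_neg _ _ (fun h' => h (dropU_eq_leaf.mp h')), if_pos (by omega)]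

theorem FP.pairU' {O : List Bool → Bool} {F G : Tr → Tr} (hF : FP O F) (hG : FP O G) :
    FP O (fun v => pairU (F v) (G v)) :=
  FP.cs' (FP.dropU' hF hG) (FP.addU' (FP.mulU' hF hF) (FP.addU' hF (FP.ulen' hG)))
    (FP.addU' (FP.mulU' hG hG) (FP.ulen' hF))

/-- program for `cde` -/
def cdeT (K N i x : Tr) : Tr := node leaf (pairU K (pairU N (pairU i x)))

theorem cdeT_eq (K N i x : Tr) : cdeT K N i x = num (cde (len K) (len N) (len i) (len x)) := by
  rw [cdeT, pairU_eq, pairU_eq, pairU_eq, len_num, len_num]
  rfl

theorem FP.cdeT' {O : List Bool → Bool} {F G H J : Tr → Tr} (hF : FP O F) (hG : FP O G)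
    (hH : FP O H) (hJ : FP O J) : FP O (fun v => cdeT (F v) (G v) (H v) (J v)) :=
  FP.node' FP.leaf' (FP.pairU' hF (FP.pairU' hG (FP.pairU' hH hJ)))

/-- ask the first oracle about the string of `len w` ones -/
def askT (O : List Bool → Bool) (w : Tr) : Tr := bit (O (dec (node leaf (onesPre w leaf))))

theorem askT_spec (f : ℕ → Bool) (B : List Bool → Bool) (w : Tr) :
    askT (join (tal f) B) w ≠ leaf ↔ f (len w) = true := by
  have e : dec (node leaf (onesPre w leaf)) = false :: List.replicate (len w) true := by
    have h1 := onesPre_enc w []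
    rw [List.append_nil] at h1
    have h2 : onesPre w leaf = enc (List.replicate (len w) true) := h1
    rw [h2]
    show decide (leaf ≠ leaf) :: dec _ = _
    rw [dec_enc]
    simp
  rw [askT, e, bit_ne_leaf]
  have : join (tal f) B (false :: List.replicate (len w) true) =
    tal f (List.replicate (len w) true) := rfl
  rw [this, tal_replicate]

theorem FP.askT' {O : List Bool → Bool} {F : Tr → Tr} (hF : FP O F) :
    FP O (fun v => askT O (F v)) :=
  FP.query' (FP.node' FP.leaf' (FP.onesPre' hF FP.leaf'))

/-! ### the complete problem -/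

/-- the relation -/
def RS (B : List Bool → Bool) (z y : List Bool) : Prop :=
  slf B (cde (zK z) (zN z) (zi z) (zx z).length) = true →
    Usol (join (tal (slf B)) B) (zi z) (zK z) (zN z) (zx z) y

open Classical in
theorem polyTime_RS (B : List Bool → Bool) :
    PolyTimeRel (join (tal (slf B)) B) (fun z y => decide (RS B z y)) := by
  have hz : FP (join (tal (slf B)) B) (fun v => fst v) := FP.fst' FP.id'
  have hy : FP (join (tal (slf B)) B) (fun v => snd v) := FP.snd' FP.id'
  have h1 := FP.cdeT' (FP.tK' hz) (FP.tN' hz) (FP.ti' hz) (FP.tx' hz)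
  have h2 := FP.usT' (FP.ti' hz) (FP.tK' hz) (FP.tN' hz) (FP.tx' hz) hy
  have hF := FP.cs' (FP.askT' h1) (FP.const' tt) h2
  refine polyTimeRel_of_FP hF (fun z y => ?_)
  rw [decide_eq_true_eq]
  unfold RS
  simp only [fst_node, snd_node]
  rw [tK_enc, tN_enc, ti_enc, tx_enc, cdeT_eq, len_num, len_num, len_num, len_enc]
  by_cases h : slf B (cde (zK z) (zN z) (zi z) (zx z).length) = true
  · rw [cs_neg _ _ ((askT_spec _ _ _).mpr (by rw [len_num]; exact h)), usT_spec]
    simp [h, len_num]
  · rw [cs_pos _ _ (by
      by_contra hcon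
      have := (askT_spec _ _ _).mp hcon
      rw [len_num] at this
      exact h this)]
    simp [h]

open Classical in
/-- Relative to `B` and a suitable tally oracle, there is a complete total NP search problem. -/
theorem exists_complete (B : List Bool → Bool) :
    ∃ T : TFNP (join (tal (slf B)) B), T.IsComplete := by
  let T : TFNP (join (tal (slf B)) B) :=
    { R := fun z y => decide (RS B z y)
      p := Polynomial.X
      polyTime := polyTime_RS B
      total := by
        intro z
        simp only [decide_eq_true_eq, Polynomial.eval_X]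
        by_cases h : slf B (cde (zK z) (zN z) (zi z) (zx z).length) = true
        · obtain ⟨y, hy⟩ := (slf_spec B _ _ _ _).mp h (zx z) rfl
          refine ⟨y, ?_, fun _ => hy⟩
          have h1 := hy.1
          have h2 := z_le z
          omega
        · exact ⟨[], by simp, fun h' => absurd h' h⟩ }
  refine ⟨T, fun S => ?_⟩
  obtain ⟨i, k, n, hS⟩ := exists_index S
  refine ⟨fun x => ins (k.eval x.length) (n.eval x.length) i x, fun _ y => y,
    polyTimeFun_ins i k n, ?_, fun x y hy => ?_⟩
  · exact polyTimeFun₂_of_FP (F := fun v => snd v) (FP.snd' FP.id') (fun x y => by rw [snd_node])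
  · have h1 : RS B (ins (k.eval x.length) (n.eval x.length) i x) y := of_decide_eq_true hy.2
    show S.IsSol x y
    unfold RS at h1
    rw [zK_ins, zN_ins, zi_ins, zx_ins, slf_spec] at h1
    apply (hS x y).mp
    apply h1
    intro x' hx'
    obtain ⟨y', hy'⟩ := S.total x'
    refine ⟨y', ?_⟩
    have := (hS x' y').mpr hy'
    rw [hx'] at this
    exact this

end Pool.Agent.H65.TS
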