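import Pool.Agent.H88.Lazy.Rel

set_option autoImplicit false

/-!
# Tally oracles, NP, and polynomial time Turing reductions between search problems
-/

namespace Pool.Agent.H65.TS

open Pool.Agent.H88.RO Pool.Agent.H88.RO.Tr

/-- `A` is a tally set: it contains only strings of ones. -/
def Tally (A : List Bool → Bool) : Prop := ∀ w, A w = true → w = List.replicate w.length true

/-- The set of strings `L` is in NP relative to the oracle `O`. -/
def InNP (O : List Bool → Bool) (L : Set (List Bool)) : Prop :=
  ∃ (R : List Bool → List Bool → Bool) (p : Polynomial ℕ), PolyTimeRel O R ∧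
    ∀ x, x ∈ L ↔ ∃ y : List Bool, y.length ≤ p.eval x.length ∧ R x y = true

/-- `Hist T c x h`: the list `h` (latest entry first) is a possible list of answers when the
program `c` asks queries to `T` on input `x`; each query is computed by `c` from `x` and the
answers received so far, and it may be answered by any of its `T`-solutions. -/
inductive Hist {O : List Bool → Bool} (T : TFNP O) (c : Prog) (x : List Bool) : Tr → Prop
  | nil : Hist T c x leaf
  | cons {h : Tr} {q y : List Bool} {t : ℕ} (hh : Hist T c x h)
      (he : Eval O c (node (enc x) h) (enc q) t) (hy : T.IsSol q y) :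
      Hist T c x (node (enc y) h)

/-- `S` is polynomial-time Turing reducible to `T` by the programs `cf` (which computes the
next query to `T`) and `cg` (which computes the solution), with time bound `r` and with `s`
queries. -/
def TuringReducesBy {O : List Bool → Bool} (S T : TFNP O) (cf cg : Prog) (r s : Polynomial ℕ) :
    Prop :=
  ∀ x h, Hist T cf x h →
    (len h < s.eval x.length →
      ∃ q, ∃ t ≤ r.eval x.length, Eval O cf (node (enc x) h) (enc q) t) ∧
    (len h = s.eval x.length →
      ∃ w, ∃ t ≤ r.eval x.length, Eval O cg (node (enc x) h) (enc w) t ∧ S.IsSol x w)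

/-- `S` is polynomial-time Turing reducible to `T`. -/
def TuringReduces {O : List Bool → Bool} (S T : TFNP O) : Prop :=
  ∃ (cf cg : Prog) (r s : Polynomial ℕ), TuringReducesBy S T cf cg r s

variable {O : List Bool → Bool}

/-! ### from functions on trees to functions on strings -/

theorem polyTimeRel_of_FP {F : Tr → Tr} (hF : FP O F) {R : List Bool → List Bool → Bool}
    (h : ∀ x y, F (node (enc x) (enc y)) ≠ leaf ↔ R x y = true) : PolyTimeRel O R := by
  obtain ⟨c, q, hc⟩ := FP.cs' hF FP.leaf' (FP.const' tt)
  refine ⟨c, q.comp (4 * Polynomial.X + 3), fun x y => ?_⟩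
  obtain ⟨t, ht, he⟩ := hc (node (enc x) (enc y))
  refine ⟨t, ht.trans ?_, ?_⟩
  · simp only [Polynomial.eval_comp, Polynomial.eval_add, Polynomial.eval_mul,
      Polynomial.eval_ofNat, Polynomial.eval_X]
    apply poly_mono
    have h1 := size_enc_le x
    have h2 := size_enc_le y
    simp only [size]
    omega
  · have : cs (F (node (enc x) (enc y))) leaf tt = bit (R x y) := by
      by_cases h1 : R x y = true
      · rw [cs_neg _ _ ((h x y).mpr h1), h1]; rfl
      · rw [cs_pos _ _ (by
          by_contra hcon
          exact h1 ((h x y).mp hcon))]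
        rw [Bool.not_eq_true] at h1
        rw [h1]; rfl
    rw [← this]
    exact he

theorem polyTimeFun_of_FP {F : Tr → Tr} (hF : FP O F) {f : List Bool → List Bool}
    (h : ∀ x, F (enc x) = enc (f x)) : PolyTimeFun O f := by
  obtain ⟨c, q, hc⟩ := hF
  refine ⟨c, q.comp (4 * Polynomial.X + 1), fun x => ?_⟩
  obtain ⟨t, ht, he⟩ := hc (enc x)
  rw [h] at he
  refine ⟨t, ht.trans ?_, he⟩
  simp only [Polynomial.eval_comp, Polynomial.eval_add, Polynomial.eval_mul,
    Polynomial.eval_ofNat, Polynomial.eval_X, Polynomial.eval_one]
  exact poly_mono q (size_enc_le x)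

theorem polyTimeFun₂_of_FP {F : Tr → Tr} (hF : FP O F) {g : List Bool → List Bool → List Bool}
    (h : ∀ x y, F (node (enc x) (enc y)) = enc (g x y)) : PolyTimeFun₂ O g := by
  obtain ⟨c, q, hc⟩ := hF
  refine ⟨c, q.comp (4 * Polynomial.X + 3), fun x y => ?_⟩
  obtain ⟨t, ht, he⟩ := hc (node (enc x) (enc y))
  rw [h] at he
  refine ⟨t, ht.trans ?_, he⟩
  simp only [Polynomial.eval_comp, Polynomial.eval_add, Polynomial.eval_mul,
    Polynomial.eval_ofNat, Polynomial.eval_X]
  apply poly_mono
  have h1 := size_enc_le x
  have h2 := size_enc_le y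
  simp only [size]
  omega

/-! ### programs relative to `B` can be run relative to `join A B` -/

/-- replace the queries to `B` by queries to `join A B` -/
def lift : Prog → Prog
  | .id => .id
  | .nil => .nil
  | .fst => .fst
  | .snd => .snd
  | .query => .comp .query (.pair (.pair .nil .nil) .id)
  | .pair f g => .pair (lift f) (lift g)
  | .comp f g => .comp (lift f) (lift g)
  | .cond f g => .cond (lift f) (lift g)
  | .loop f => .loop (lift f)

theorem lift_eval (A B : List Bool → Bool) {c : Prog} {v w : Tr} {t : ℕ} (h : Eval B c v w t) :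
    ∃ t' ≤ 20 * t, Eval (join A B) (lift c) v w t' := by
  induction h with
  | id v => exact ⟨_, by omega, Eval.id v⟩
  | nil v => exact ⟨_, by omega, Eval.nil v⟩
  | fst v => exact ⟨_, by omega, Eval.fst v⟩
  | snd v => exact ⟨_, by omega, Eval.snd v⟩
  | query v =>
    have h1 := Eval.comp (Eval.pair (Eval.pair (Eval.nil (O := join A B) v) (Eval.nil v))
      (Eval.id v)) (Eval.query (O := join A B) (node (node leaf leaf) v))
    refine ⟨_, ?_, h1⟩
    simp only [size]
    omega
  | pair hf hg ihf ihg =>
    obtain ⟨s', hs, es⟩ := ihf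
    obtain ⟨t', ht, et⟩ := ihg
    exact ⟨_, by omega, Eval.pair es et⟩
  | comp hg hf ihg ihf =>
    obtain ⟨s', hs, es⟩ := ihg
    obtain ⟨t', ht, et⟩ := ihf
    exact ⟨_, by omega, Eval.comp es et⟩
  | condNil h hf ihf =>
    obtain ⟨s', hs, es⟩ := ihf
    exact ⟨_, by omega, Eval.condNil h es⟩
  | condNode h hf ihf =>
    obtain ⟨s', hs, es⟩ := ihf
    exact ⟨_, by omega, Eval.condNode h es⟩
  | loopDone h => exact ⟨_, by omega, Eval.loopDone h⟩
  | loopStep h hf hl ihf ihl =>
    obtain ⟨s', hs, es⟩ := ihf
    obtain ⟨t', ht, et⟩ := ihl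
    exact ⟨_, by omega, Eval.loopStep h es et⟩

theorem FP.lift' {A B : List Bool → Bool} {F : Tr → Tr} (hF : FP B F) : FP (join A B) F := by
  obtain ⟨c, q, hc⟩ := hF
  refine ⟨lift c, 20 * q, fun v => ?_⟩
  obtain ⟨t, ht, he⟩ := hc v
  obtain ⟨t', ht', he'⟩ := lift_eval A B he
  refine ⟨t', ?_, he'⟩
  simp only [Polynomial.eval_mul, Polynomial.eval_ofNat]
  omega

theorem PolyTimeRel.lift' {A B : List Bool → Bool} {R : List Bool → List Bool → Bool}
    (hR : PolyTimeRel B R) : PolyTimeRel (join A B) R := by
  obtain ⟨c, q, hc⟩ := hR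
  refine ⟨lift c, 20 * q, fun x y => ?_⟩
  obtain ⟨t, ht, he⟩ := hc x y
  obtain ⟨t', ht', he'⟩ := lift_eval A B he
  refine ⟨t', ?_, he'⟩
  simp only [Polynomial.eval_mul, Polynomial.eval_ofNat]
  omega

/-! ### many-one reductions are Turing reductions -/

theorem TuringReduces.of_reduces {S T : TFNP O} (h : S.Reduces T) : TuringReduces S T := by
  obtain ⟨f, g, ⟨cf, qf, hf⟩, ⟨cg, qg, hg⟩, hred⟩ := h
  -- size of the queries
  have hlen : ∀ x, (f x).length ≤ 2 * qf.eval x.length := by
    intro x
    obtain ⟨t, ht, he⟩ := hf x
    have h1 := he.size_le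
    have h2 := len_le_size (enc (f x))
    rw [len_enc] at h2
    omega
  let P : Polynomial ℕ := T.p.comp (2 * qf)
  refine ⟨Prog.comp cf Prog.fst, Prog.comp cg (Prog.pair Prog.fst (Prog.comp Prog.fst Prog.snd)),
    qf + qg.comp (Polynomial.X + P) + 40 * Polynomial.X + 40 * P + 100, 1, ?_⟩
  intro x h hh
  have hr : (qf + qg.comp (Polynomial.X + P) + 40 * Polynomial.X + 40 * P + 100).eval x.length =
      qf.eval x.length + qg.eval (x.length + P.eval x.length) + 40 * x.length +
        40 * P.eval x.length + 100 := by
    simp
  rw [hr, Polynomial.eval_one]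
  have hx := size_enc_le x
  constructor
  · intro h1
    have h2 : len h = 0 := by omega
    rw [len_eq_zero] at h2
    subst h2
    obtain ⟨t, ht, he⟩ := hf x
    refine ⟨f x, _, ?_, Eval.comp (Eval.fst (node (enc x) leaf)) he⟩
    simp only [size]
    omega
  · intro h1
    cases hh with
    | nil => simp [len] at h1
    | @cons h' q y t hh' he hy =>
      simp only [len] at h1
      have h2 : len h' = 0 := by omega
      rw [len_eq_zero] at h2
      subst h2
      -- the query was `f x`
      obtain ⟨t1, ht1, he1⟩ := hf x
      have hq : q = f x := by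
        have e1 := U_eq he (K := (size (code (Prog.comp cf Prog.fst)) + 10) *
          (t + (t1 + (size (node (enc x) leaf) + 1) + size (node (enc x) leaf) + 1)) + 10) (by
            have := Nat.mul_le_mul_left (size (code (Prog.comp cf Prog.fst)) + 10)
              (show t ≤ t + (t1 + (size (node (enc x) leaf) + 1) + size (node (enc x) leaf) + 1)
                by omega)
            omega)
        have e2 := U_eq (Eval.comp (Eval.fst (node (enc x) leaf)) he1)
          (K := (size (code (Prog.comp cf Prog.fst)) + 10) *
          (t + (t1 + (size (node (enc x) leaf) + 1) + size (node (enc x) leaf) + 1)) + 10) (by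
            have := Nat.mul_le_mul_left (size (code (Prog.comp cf Prog.fst)) + 10)
              (show (size (node (enc x) leaf) + 1) + t1 + size (node (enc x) leaf) + 1 ≤
                t + (t1 + (size (node (enc x) leaf) + 1) + size (node (enc x) leaf) + 1)
                by omega)
            omega)
        rw [e1] at e2
        have e3 : enc q = enc (f x) := by
          injection e2
        have := congrArg dec e3
        simpa using this
      subst hq
      have hy' : y.length ≤ P.eval x.length := by
        have h3 := hy.1
        have h4 := poly_mono T.p (hlen x)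
        simp only [P, Polynomial.eval_comp, Polynomial.eval_mul, Polynomial.eval_ofNat]
        omega
      obtain ⟨t2, ht2, he2⟩ := hg x y
      have hqg : qg.eval (x.length + y.length) ≤ qg.eval (x.length + P.eval x.length) :=
        poly_mono qg (by omega)
      have hys := size_enc_le y
      refine ⟨g x y, _, ?_, Eval.comp (Eval.pair (Eval.fst (node (enc x) (node (enc y) leaf)))
        (Eval.comp (Eval.snd (node (enc x) (node (enc y) leaf)))
          (Eval.fst (node (enc y) leaf)))) he2, hred x y hy⟩
      simp only [size]
      omega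

end Pool.Agent.H65.TS
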