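import Mathlib

set_option autoImplicit false

/-!
# A finite-extension construction
-/

namespace Pool.Agent.H65.TS

/-- agreement below `b` -/
def Agr (b : ℕ) (f g : ℕ → Bool) : Prop := ∀ k < b, f k = g k

theorem Agr.mono {b c : ℕ} {f g : ℕ → Bool} (h : Agr c f g) (hbc : b ≤ c) : Agr b f g :=
  fun k hk => h k (lt_of_lt_of_le hk hbc)

theorem Agr.trans {b : ℕ} {f g h : ℕ → Bool} (h1 : Agr b f g) (h2 : Agr b g h) : Agr b f h :=
  fun k hk => (h1 k hk).trans (h2 k hk)

theorem Agr.symm {b : ℕ} {f g : ℕ → Bool} (h1 : Agr b f g) : Agr b g f :=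
  fun k hk => (h1 k hk).symm

/-- **The construction.**  `con f r` is the content (an owner and a string) of region number `r`
of the oracle `f`; `Tt i` is a closed condition and `Fl i j` is an open one. -/
theorem forcing (st : ℕ → ℕ) (hst : ∀ n, n ≤ st n) (hmono : Monotone st)
    (con : (ℕ → Bool) → ℕ → Option (ℕ × List Bool))
    (hcon : ∀ f g r, Agr (st (r + 1)) f g → con f r = con g r)
    (good : List Bool → Prop)
    (Tt : ℕ → (ℕ → Bool) → Prop) (hTt : ∀ i f, ¬ Tt i f → ∃ b, ∀ g, Agr b f g → ¬ Tt i g)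
    (Fl : ℕ → ℕ → (ℕ → Bool) → Prop)
    (hFl : ∀ i j f, Fl i j f → ∃ b, ∀ g, Agr b f g → Fl i j g)
    (key : ∀ i j f r0, (∀ f', Agr (st r0) f f' →
        (∀ r, r0 ≤ r → ∀ i' w, con f' r = some (i', w) → i' = i ∨ good w) → Tt i f') →
      ∃ f', Agr (st r0) f f' ∧
        (∀ r, r0 ≤ r → ∀ i' w, con f' r = some (i', w) → good w) ∧ Fl i j f') :
    ∃ F : ℕ → Bool, ∀ i, Tt i F →
      (∀ r w, con F r = some (i, w) → good w) ∧ ∀ j, Fl i j F := by
  have step : ∀ (s : ℕ) (σ : (ℕ → Bool) × ℕ), ∃ τ : (ℕ → Bool) × ℕ, σ.2 < τ.2 ∧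
      Agr (st σ.2) σ.1 τ.1 ∧
      (((∀ r, σ.2 ≤ r → ∀ i' w, con τ.1 r = some (i', w) → i' = (Nat.unpair s).1 ∨ good w) ∧
          ∀ g, Agr (st τ.2) τ.1 g → ¬ Tt (Nat.unpair s).1 g) ∨
        ((∀ r, σ.2 ≤ r → ∀ i' w, con τ.1 r = some (i', w) → good w) ∧
          ∀ g, Agr (st τ.2) τ.1 g → Fl (Nat.unpair s).1 (Nat.unpair s).2 g)) := by
    intro s σ
    by_cases hc : ∀ f', Agr (st σ.2) σ.1 f' →
        (∀ r, σ.2 ≤ r → ∀ i' w, con f' r = some (i', w) → i' = (Nat.unpair s).1 ∨ good w) →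
        Tt (Nat.unpair s).1 f'
    · obtain ⟨f', h1, h2, h3⟩ := key _ (Nat.unpair s).2 _ _ hc
      obtain ⟨b, hb⟩ := hFl _ _ _ h3
      refine ⟨(f', max (σ.2 + 1) b), by simp, h1, Or.inr ⟨h2, fun g hg => hb g (hg.mono ?_)⟩⟩
      exact (le_max_right _ _).trans (hst _)
    · push Not at hc
      obtain ⟨f', h1, h2, h3⟩ := hc
      obtain ⟨b, hb⟩ := hTt _ _ h3
      refine ⟨(f', max (σ.2 + 1) b), by simp, h1, Or.inl ⟨?_, fun g hg => hb g (hg.mono ?_)⟩⟩
      · exact h2
      · exact (le_max_right _ _).trans (hst _)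
  choose nxt hn1 hn2 hn3 using step
  let σ : ℕ → (ℕ → Bool) × ℕ := fun s => Nat.rec ((fun _ => false), 0) (fun s τ => nxt s τ) s
  have hσ0 : (σ 0).2 = 0 := rfl
  have hσ : ∀ s, σ (s + 1) = nxt s (σ s) := fun s => rfl
  have hlt : ∀ s, (σ s).2 < (σ (s + 1)).2 := fun s => by rw [hσ]; exact hn1 _ _
  have hsm : StrictMono (fun s => (σ s).2) := strictMono_nat_of_lt_succ hlt
  have hge : ∀ s, s ≤ (σ s).2 := hsm.id_le
  have hagr : ∀ s t, s ≤ t → Agr (st (σ s).2) (σ s).1 (σ t).1 := by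
    intro s t hst'
    induction t, hst' using Nat.le_induction with
    | base => exact fun _ _ => rfl
    | succ t ht ih =>
      refine ih.trans ?_
      have h1 := hn2 t (σ t)
      rw [← hσ] at h1
      exact h1.mono (hmono (hsm.monotone ht))
  let F : ℕ → Bool := fun k => (σ (k + 1)).1 k
  have hF : ∀ s, Agr (st (σ s).2) (σ s).1 F := by
    intro s k hk
    rcases Nat.le_total s (k + 1) with h | h
    · exact hagr s (k + 1) h k hk
    · refine (hagr (k + 1) s h k ?_).symm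
      have h1 := hst (σ (k + 1)).2
      have h2 := hge (k + 1)
      omega
  refine ⟨F, fun i hi => ⟨fun r w hrw => ?_, fun j => ?_⟩⟩
  · -- find the stage
    obtain ⟨s, hs1, hs2⟩ : ∃ s, (σ s).2 ≤ r ∧ r < (σ (s + 1)).2 := by
      have hex : ∃ s, r < (σ s).2 := ⟨r + 1, by have := hge (r + 1); omega⟩
      classical
      have h1 := Nat.find_spec hex
      have h2 : Nat.find hex ≠ 0 := by
        intro h0
        rw [h0, hσ0] at h1
        omega
      obtain ⟨s, hs⟩ := Nat.exists_eq_succ_of_ne_zero h2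
      refine ⟨s, ?_, ?_⟩
      · have := Nat.find_min hex (m := s) (by omega)
        omega
      · rw [hs] at h1; exact h1
    have hc : con (σ (s + 1)).1 r = some (i, w) := by
      rw [← hrw]
      exact hcon _ _ _ ((hF (s + 1)).mono (hmono (by omega)))
    rw [hσ] at hc
    rcases hn3 s (σ s) with ⟨h1, h2⟩ | ⟨h1, _⟩
    · rcases h1 r hs1 i w hc with h3 | h3
      · exfalso
        have h4 := hF (s + 1)
        rw [hσ] at h4
        exact h2 F h4 (h3 ▸ hi)
      · exact h3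
    · exact h1 r hs1 i w hc
  · have h4 := hF (Nat.pair i j + 1)
    rw [hσ] at h4
    rcases hn3 (Nat.pair i j) (σ (Nat.pair i j)) with ⟨_, h2⟩ | ⟨_, h2⟩
    · exfalso
      have := h2 F h4
      rw [Nat.unpair_pair] at this
      exact this hi
    · have := h2 F h4
      rw [Nat.unpair_pair] at this
      exact this

end Pool.Agent.H65.TS
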