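import Pool.Agent.H65.TS.Self
import Pool.Agent.H65.TS.Force

set_option autoImplicit false

/-!
# Failures of Turing reductions
-/

namespace Pool.Agent.H65.TS

open Pool.Agent.H88.RO Pool.Agent.H88.RO.Tr

/-- a candidate for a search problem: the number of a machine, a clock and a length bound -/
structure Cand where
  i : ℕ
  k : Polynomial ℕ
  n : Polynomial ℕ

/-- the solutions according to the candidate -/
def CSol (O : List Bool → Bool) (κ : Cand) (x y : List Bool) : Prop :=
  Usol O κ.i (κ.k.eval x.length) (κ.n.eval x.length) x y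

/-- the candidate is total -/
def CTot (O : List Bool → Bool) (κ : Cand) : Prop := ∀ x, ∃ y, CSol O κ x y

theorem exists_cand {O : List Bool → Bool} (T : TFNP O) :
    ∃ κ : Cand, ∀ x y, CSol O κ x y ↔ T.IsSol x y := by
  obtain ⟨i, k, n, h⟩ := exists_index T
  exact ⟨⟨i, k, n⟩, h⟩

theorem CSol_congr {O O' : List Bool → Bool} {κ : Cand} {x y : List Bool}
    (h : ∀ q : List Bool, q.length ≤ κ.k.eval x.length → O' q = O q) :
    CSol O' κ x y ↔ CSol O κ x y := Usol_congr h

theorem not_CTot_local {O : List Bool → Bool} {κ : Cand} (h : ¬ CTot O κ) :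
    ∃ b, ∀ O' : List Bool → Bool, (∀ q : List Bool, q.length ≤ b → O' q = O q) → ¬ CTot O' κ := by
  unfold CTot at h
  push Not at h
  obtain ⟨x, hx⟩ := h
  refine ⟨κ.k.eval x.length, fun O' hO' hc => ?_⟩
  obtain ⟨y, hy⟩ := hc x
  exact hx y ((CSol_congr hO').mp hy)

/-- possible histories of the reduction with query program `cf` and clock `K` on input `x` -/
inductive HU (O : List Bool → Bool) (κ : Cand) (cf : Tr) (K : ℕ) (x : List Bool) : Tr → Prop
  | nil : HU O κ cf K x leaf
  | cons {h : Tr} {y : List Bool} (hh : HU O κ cf K x h)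
      (hq : U O cf (node (enc x) h) K ≠ leaf)
      (hy : CSol O κ (dec (snd (U O cf (node (enc x) h) K))) y) :
      HU O κ cf K x (node (enc y) h)

/-- the history `h` shows that the reduction fails -/
def Fin (O : List Bool → Bool) (cf cg : Tr) (K s : ℕ) (x : List Bool) (Sol : List Bool → Prop)
    (h : Tr) : Prop :=
  (len h < s ∧ U O cf (node (enc x) h) K = leaf) ∨
    (len h = s ∧ (U O cg (node (enc x) h) K = leaf ∨
      ¬ Sol (dec (snd (U O cg (node (enc x) h) K)))))

/-- the reduction fails at `x` -/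
def Bad (O : List Bool → Bool) (κ : Cand) (cf cg : Tr) (K s : ℕ) (x : List Bool)
    (Sol : List Bool → Prop) : Prop :=
  ∃ h, HU O κ cf K x h ∧ Fin O cf cg K s x Sol h

theorem bad_of_no_sol {O : List Bool → Bool} {κ : Cand} (hκ : CTot O κ) (cf cg : Tr) (K s : ℕ)
    (x : List Bool) {Sol : List Bool → Prop} (hS : ∀ y, ¬ Sol y) :
    Bad O κ cf cg K s x Sol := by
  by_contra hB
  have key : ∀ m ≤ s, ∃ h, HU O κ cf K x h ∧ len h = m := by
    intro m
    induction m with
    | zero => intro _; exact ⟨leaf, HU.nil, rfl⟩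
    | succ m ih =>
      intro hm
      obtain ⟨h, h1, h2⟩ := ih (by omega)
      have h3 : U O cf (node (enc x) h) K ≠ leaf := by
        intro h4
        exact hB ⟨h, h1, Or.inl ⟨by omega, h4⟩⟩
      obtain ⟨y, hy⟩ := hκ (dec (snd (U O cf (node (enc x) h) K)))
      exact ⟨_, HU.cons h1 h3 hy, by simp only [len]; omega⟩
  obtain ⟨h, h1, h2⟩ := key s le_rfl
  exact hB ⟨h, h1, Or.inr ⟨h2, Or.inr (hS _)⟩⟩

theorem HU_local {O : List Bool → Bool} {κ : Cand} {cf : Tr} {K : ℕ} {x : List Bool} {h : Tr}
    (hh : HU O κ cf K x h) : ∃ b, ∀ O' : List Bool → Bool,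
      (∀ q : List Bool, q.length ≤ b → O' q = O q) → HU O' κ cf K x h := by
  induction hh with
  | nil => exact ⟨0, fun _ _ => HU.nil⟩
  | @cons h y hh hq hy ih =>
    obtain ⟨b, hb⟩ := ih
    refine ⟨max (max b K) (κ.k.eval (dec (snd (U O cf (node (enc x) h) K))).length),
      fun O' hO' => ?_⟩
    have e : U O' cf (node (enc x) h) K = U O cf (node (enc x) h) K :=
      U_local' _ _ _ (fun q hq => hO' q (by
        have : K ≤ max (max b K) (κ.k.eval (dec (snd (U O cf (node (enc x) h) K))).length) :=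
          (le_max_right _ _).trans (le_max_left _ _)
        omega))
    refine HU.cons (hb O' (fun q hq => hO' q (hq.trans ?_))) (by rw [e]; exact hq) ?_
    · exact (le_max_left _ _).trans (le_max_left _ _)
    · rw [e]
      exact (CSol_congr (fun q hq => hO' q (hq.trans (le_max_right _ _)))).mpr hy

theorem Bad_local {O : List Bool → Bool} {κ : Cand} {cf cg : Tr} {K s : ℕ} {x : List Bool}
    {Sol : List Bool → Prop} (hB : Bad O κ cf cg K s x Sol) : ∃ b, ∀ O' : List Bool → Bool,
      (∀ q : List Bool, q.length ≤ b → O' q = O q) → Bad O' κ cf cg K s x Sol := by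
  obtain ⟨h, h1, h2⟩ := hB
  obtain ⟨b, hb⟩ := HU_local h1
  refine ⟨max b K, fun O' hO' => ⟨h, hb O' (fun q hq => hO' q (hq.trans (le_max_left _ _))), ?_⟩⟩
  have e : ∀ c v, U O' c v K = U O c v K := fun c v =>
    U_local' _ _ _ (fun q hq => hO' q (hq.trans (le_max_right _ _)))
  unfold Fin at h2 ⊢
  rw [e, e]
  exact h2

/-- the clock of a reduction -/
noncomputable def rclk (cf cg : Prog) (r : Polynomial ℕ) : Polynomial ℕ :=
  Polynomial.C (size (code cf) + size (code cg) + 10) * r + 10

theorem rclk_eval (cf cg : Prog) (r : Polynomial ℕ) (n : ℕ) :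
    (rclk cf cg r).eval n = (size (code cf) + size (code cg) + 10) * r.eval n + 10 := by
  simp [rclk]

theorem not_bad {O : List Bool → Bool} {S T : TFNP O} {cf cg : Prog} {r s : Polynomial ℕ}
    (hred : TuringReducesBy S T cf cg r s) {κ : Cand}
    (hκ : ∀ x y, CSol O κ x y ↔ T.IsSol x y) (x : List Bool) :
    ¬ Bad O κ (code cf) (code cg) ((rclk cf cg r).eval x.length) (s.eval x.length) x
      (S.IsSol x) := by
  set K := (rclk cf cg r).eval x.length with hK
  rw [rclk_eval] at hK
  have runf : ∀ h, Hist T cf x h → len h < s.eval x.length → ∃ q, ∃ t,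
      Eval O cf (node (enc x) h) (enc q) t ∧
      U O (code cf) (node (enc x) h) K = node leaf (enc q) := by
    intro h hh hl
    obtain ⟨q, t, ht, he⟩ := (hred x h hh).1 hl
    refine ⟨q, t, he, U_eq he ?_⟩
    rw [hK]
    exact Nat.add_le_add_right (Nat.mul_le_mul (by omega) ht) _
  have key : ∀ h, HU O κ (code cf) K x h → len h ≤ s.eval x.length → Hist T cf x h := by
    intro h hh
    induction hh with
    | nil => intro _; exact Hist.nil
    | @cons h y hh hq hy ih =>
      intro hl
      simp only [len] at hl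
      have h1 := ih (by omega)
      obtain ⟨q, t, he, hU⟩ := runf h h1 (by omega)
      rw [hU, snd_node, dec_enc] at hy
      exact Hist.cons h1 he ((hκ _ _).mp hy)
  rintro ⟨h, h1, h2⟩
  rcases h2 with ⟨h2, h3⟩ | ⟨h2, h3⟩
  · obtain ⟨q, t, he, hU⟩ := runf h (key h h1 h2.le) h2
    rw [hU] at h3
    cases h3
  · obtain ⟨w, t, ht, he, hw⟩ := (hred x h (key h h1 h2.le)).2 h2
    have hU : U O (code cg) (node (enc x) h) K = node leaf (enc w) := by
      refine U_eq he ?_
      rw [hK]
      exact Nat.add_le_add_right (Nat.mul_le_mul (by omega) ht) _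
    rw [hU, snd_node, dec_enc] at h3
    rcases h3 with h3 | h3
    · cases h3
    · exact h3 hw

/-! ### the size of histories -/

theorem length_dec_U (O : List Bool → Bool) (c v : Tr) (K : ℕ) :
    (dec (snd (U O c v K))).length ≤ K := by
  rw [length_dec]
  rcases U_cases (O := O) c v K with h | ⟨w, h⟩
  · rw [h]; simp [len]
  · have h1 := size_of_U h
    rw [h, snd_node]
    have h2 := len_le_size w
    omega

theorem HU_size {O : List Bool → Bool} {κ : Cand} {cf : Tr} {K : ℕ} {x : List Bool} {h : Tr}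
    (hh : HU O κ cf K x h) : size h ≤ len h * (4 * κ.n.eval K + 2) + 1 := by
  induction hh with
  | nil => simp [size, len]
  | @cons h y hh hq hy ih =>
    have h1 := hy.1
    have h2 := poly_mono κ.n (length_dec_U O cf (node (enc x) h) K)
    have h3 := size_enc_le y
    simp only [size, len]
    have h4 : (len h + 1) * (4 * κ.n.eval K + 2) =
      len h * (4 * κ.n.eval K + 2) + (4 * κ.n.eval K + 2) := by ring
    omega

/-! ### checking histories -/

/-- the validity of the next answer -/
def valT (κ : Cand) (Pk Pn : Tr → Tr) (cf : Tr) (O : List Bool → Bool) (K X ok h a : Tr) : Tr :=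
  cs ok leaf (cs (U O cf (node X h) (len K)) leaf
    (cs (usT O (num κ.i) (Pk (norm (snd (U O cf (node X h) (len K)))))
      (Pn (norm (snd (U O cf (node X h) (len K))))) (norm (snd (U O cf (node X h) (len K)))) a)
      leaf tt))

theorem valT_size (κ : Cand) (Pk Pn : Tr → Tr) (cf : Tr) (O : List Bool → Bool)
    (K X ok h a : Tr) : size (valT κ Pk Pn cf O K X ok h a) ≤ 3 := by
  unfold valT cs
  split_ifs <;> simp [size, tt]

theorem valT_spec {κ : Cand} {Pk Pn : Tr → Tr} (hk : ∀ v, Pk v = num (κ.k.eval (len v)))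
    (hn : ∀ v, Pn v = num (κ.n.eval (len v))) (cf : Tr) (O : List Bool → Bool) (K : Tr)
    (x : List Bool) (ok h : Tr) (y : List Bool) :
    valT κ Pk Pn cf O K (enc x) ok h (enc y) ≠ leaf ↔
      ok ≠ leaf ∧ U O cf (node (enc x) h) (len K) ≠ leaf ∧
        CSol O κ (dec (snd (U O cf (node (enc x) h) (len K)))) y := by
  unfold valT
  by_cases h1 : ok = leaf
  · rw [cs_pos _ _ h1]; simp [h1]
  · rw [cs_neg _ _ h1]
    by_cases h2 : U O cf (node (enc x) h) (len K) = leaf
    · rw [cs_pos _ _ h2]; simp [h2]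
    · rw [cs_neg _ _ h2]
      have h3 := usT_spec (O := O) (num κ.i)
        (Pk (norm (snd (U O cf (node (enc x) h) (len K)))))
        (Pn (norm (snd (U O cf (node (enc x) h) (len K)))))
        (dec (snd (U O cf (node (enc x) h) (len K)))) y
      rw [hk, hn] at h3 ⊢
      rw [norm_eq] at h3 ⊢
      simp only [len_num, len_enc] at h3 ⊢
      have h4 : CSol O κ (dec (snd (U O cf (node (enc x) h) (len K)))) y ↔
        Usol O κ.i (κ.k.eval (dec (snd (U O cf (node (enc x) h) (len K)))).length)
        (κ.n.eval (dec (snd (U O cf (node (enc x) h) (len K)))).length)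
        (dec (snd (U O cf (node (enc x) h) (len K)))) y := Iff.rfl
      rw [h4, ← h3]
      by_cases h5 : usT O (num κ.i)
        (num (κ.k.eval (dec (snd (U O cf (node (enc x) h) (len K)))).length))
        (num (κ.n.eval (dec (snd (U O cf (node (enc x) h) (len K)))).length))
        (enc (dec (snd (U O cf (node (enc x) h) (len K))))) (enc y) = leaf
      · rw [cs_pos _ _ h5]; simp [h5]
      · rw [cs_neg _ _ h5]; simp [h1, h2, h5]

/-- one step of the check; states are `node (node θ (node K X)) (node ok (node h c))` -/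
def chstep (κ : Cand) (Pk Pn : Tr → Tr) (cf : Tr) (Ω : Tr → List Bool → Bool) (s : Tr) : Tr :=
  cs (snd (snd (snd s))) s (node (fst s) (node
    (valT κ Pk Pn cf (Ω (fst (fst s))) (fst (snd (fst s))) (snd (snd (fst s))) (fst (snd s))
      (fst (snd (snd s))) (norm (fst (snd (snd (snd s))))))
    (node (node (norm (fst (snd (snd (snd s))))) (fst (snd (snd s)))) (snd (snd (snd (snd s)))))))

theorem chstep_node (κ : Cand) (Pk Pn : Tr → Tr) (cf : Tr) (Ω : Tr → List Bool → Bool)
    (θ K X ok h a c : Tr) :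
    chstep κ Pk Pn cf Ω (node (node θ (node K X)) (node ok (node h (node a c)))) =
      node (node θ (node K X)) (node (valT κ Pk Pn cf (Ω θ) K X ok h (enc (dec a)))
        (node (node (enc (dec a)) h) c)) := by
  unfold chstep
  simp only [fst_node, snd_node, norm_eq]
  rw [cs_neg _ _ (by simp)]

theorem chstep_leaf (κ : Cand) (Pk Pn : Tr → Tr) (cf : Tr) (Ω : Tr → List Bool → Bool)
    (P ok h : Tr) : chstep κ Pk Pn cf Ω (node P (node ok (node h leaf))) =
      node P (node ok (node h leaf)) := by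
  unfold chstep
  simp only [snd_node]
  rw [cs_pos _ _ rfl]

theorem ch_sound {κ : Cand} {Pk Pn : Tr → Tr} (hk : ∀ v, Pk v = num (κ.k.eval (len v)))
    (hn : ∀ v, Pn v = num (κ.n.eval (len v))) (cf : Tr) (Ω : Tr → List Bool → Bool)
    (θ K : Tr) (x : List Bool) (c : Tr) (m : ℕ) :
    ∃ ok h c', (chstep κ Pk Pn cf Ω)^[m]
      (node (node θ (node K (enc x))) (node tt (node leaf c))) =
        node (node θ (node K (enc x))) (node ok (node h c')) ∧
      (ok ≠ leaf → HU (Ω θ) κ cf (len K) x h) := by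
  induction m with
  | zero => exact ⟨tt, leaf, c, rfl, fun _ => HU.nil⟩
  | succ m ih =>
    obtain ⟨ok, h, c', h1, h2⟩ := ih
    rw [Function.iterate_succ_apply', h1]
    cases c' with
    | leaf => exact ⟨ok, h, leaf, chstep_leaf _ _ _ _ _ _ _ _, h2⟩
    | node a c'' =>
      refine ⟨_, _, _, chstep_node _ _ _ _ _ _ _ _ _ _ _ _, fun h3 => ?_⟩
      obtain ⟨h4, h5, h6⟩ := (valT_spec hk hn cf (Ω θ) K x ok h (dec a)).mp h3
      exact HU.cons (h2 h4) h5 h6

theorem ch_complete {κ : Cand} {Pk Pn : Tr → Tr} (hk : ∀ v, Pk v = num (κ.k.eval (len v)))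
    (hn : ∀ v, Pn v = num (κ.n.eval (len v))) (cf : Tr) (Ω : Tr → List Bool → Bool)
    (θ K : Tr) (x : List Bool) {h : Tr} (hh : HU (Ω θ) κ cf (len K) x h) :
    ∃ g : Tr → Tr, ∀ c', size (g c') ≤ size h + size c' ∧ len (g c') = len h + len c' ∧
      ∃ ok, ok ≠ leaf ∧ (chstep κ Pk Pn cf Ω)^[len h]
        (node (node θ (node K (enc x))) (node tt (node leaf (g c')))) =
        node (node θ (node K (enc x))) (node ok (node h c')) := by
  induction hh with
  | nil =>
    refine ⟨fun c => c, fun c' => ⟨?_, by simp [len], tt, tt_ne, rfl⟩⟩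
    show size c' ≤ _
    omega
  | @cons h y hh hq hy ih =>
    obtain ⟨g, hg⟩ := ih
    refine ⟨fun c' => g (node (enc y) c'), fun c' => ?_⟩
    obtain ⟨h1, h2, ok, h3, h4⟩ := hg (node (enc y) c')
    refine ⟨?_, ?_, valT κ Pk Pn cf (Ω θ) K (enc x) ok h (enc y), ?_, ?_⟩
    · simp only [size] at h1 ⊢; omega
    · simp only [len] at h2 ⊢; omega
    · exact (valT_spec hk hn cf (Ω θ) K x ok h y).mpr ⟨h3, hq, hy⟩
    · rw [len, Function.iterate_succ_apply', h4, chstep_node, dec_enc]

end Pool.Agent.H65.TS
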