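import Pool.Agent.H65.TS.Hist

set_option autoImplicit false

/-!
# Checking failures of Turing reductions in NP
-/

namespace Pool.Agent.H65.TS

open Pool.Agent.H88.RO Pool.Agent.H88.RO.Tr

variable {O : List Bool → Bool}

/-- test for `Fin` -/
def finT (SF : Tr → Tr → Tr) (cf cg : Tr) (O : List Bool → Bool) (K S X σ h : Tr) : Tr :=
  cs (dropU S (node leaf h)) (cs (U O cf (node X h) (len K)) tt leaf)
    (cs (dropU S h) (cs (U O cg (node X h) (len K)) tt
      (cs (SF σ (snd (U O cg (node X h) (len K)))) tt leaf)) leaf)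

theorem finT_spec {SF : Tr → Tr → Tr} {σ : Tr} {Sol : List Bool → Prop}
    (hSF : ∀ t, SF σ t ≠ leaf ↔ Sol (dec t)) (cf cg : Tr) (O : List Bool → Bool) (K S : Tr)
    (x : List Bool) (h : Tr) :
    finT SF cf cg O K S (enc x) σ h ≠ leaf ↔ Fin O cf cg (len K) (len S) x Sol h := by
  unfold finT Fin
  by_cases h1 : len h < len S
  · rw [cs_pos _ _ (by rw [dropU_eq_leaf]; simp only [len]; omega)]
    have h2 : ¬ len h = len S := by omega
    by_cases h3 : U O cf (node (enc x) h) (len K) = leaf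
    · rw [cs_pos _ _ h3]; simp [h1, h3]
    · rw [cs_neg _ _ h3]; simp [h2, h3]
  · rw [cs_neg _ _ (by rw [ne_eq, dropU_eq_leaf]; simp only [len]; omega)]
    by_cases h2 : len h ≤ len S
    · rw [cs_pos _ _ (dropU_eq_leaf.mpr h2)]
      have h3 : len h = len S := by omega
      by_cases h4 : U O cg (node (enc x) h) (len K) = leaf
      · rw [cs_pos _ _ h4]; simp [h3, h4]
      · rw [cs_neg _ _ h4]
        by_cases h5 : SF σ (snd (U O cg (node (enc x) h) (len K))) = leaf
        · rw [cs_pos _ _ h5]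
          have h6 : ¬ Sol (dec (snd (U O cg (node (enc x) h) (len K)))) := by
            rw [← hSF]; simp [h5]
          simp [h3, h6]
        · rw [cs_neg _ _ h5]
          have h6 : Sol (dec (snd (U O cg (node (enc x) h) (len K)))) := by
            rw [← hSF]; exact h5
          simp [h3, h4, h6]
    · rw [cs_neg _ _ (by rw [ne_eq, dropU_eq_leaf]; exact h2)]
      have h3 : ¬ len h = len S := by omega
      simp [h1, h3]

/-- test for `Bad`; `c` is a certificate -/
def badT (κ : Cand) (Pk Pn : Tr → Tr) (SF : Tr → Tr → Tr) (cf cg : Tr)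
    (Ω : Tr → List Bool → Bool) (θ K S X σ c : Tr) : Tr :=
  cs (fst (snd ((chstep κ Pk Pn cf Ω)^[len c]
      (node (node θ (node K X)) (node tt (node leaf c)))))) leaf
    (finT SF cf cg (Ω θ) K S X σ (fst (snd (snd ((chstep κ Pk Pn cf Ω)^[len c]
      (node (node θ (node K X)) (node tt (node leaf c))))))))

theorem badT_sound {κ : Cand} {Pk Pn : Tr → Tr} (hk : ∀ v, Pk v = num (κ.k.eval (len v)))
    (hn : ∀ v, Pn v = num (κ.n.eval (len v))) {SF : Tr → Tr → Tr} {σ : Tr}
    {Sol : List Bool → Prop} (hSF : ∀ t, SF σ t ≠ leaf ↔ Sol (dec t)) (cf cg : Tr)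
    (Ω : Tr → List Bool → Bool) (θ K S : Tr) (x : List Bool) (c : Tr)
    (h : badT κ Pk Pn SF cf cg Ω θ K S (enc x) σ c ≠ leaf) :
    Bad (Ω θ) κ cf cg (len K) (len S) x Sol := by
  obtain ⟨ok, hh, c', h1, h2⟩ := ch_sound hk hn cf Ω θ K x c (len c)
  unfold badT at h
  rw [h1] at h
  simp only [fst_node, snd_node] at h
  by_cases h3 : ok = leaf
  · rw [cs_pos _ _ h3] at h
    exact absurd rfl h
  · rw [cs_neg _ _ h3] at h
    exact ⟨hh, h2 h3, (finT_spec hSF cf cg (Ω θ) K S x hh).mp h⟩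

theorem badT_complete {κ : Cand} {Pk Pn : Tr → Tr} (hk : ∀ v, Pk v = num (κ.k.eval (len v)))
    (hn : ∀ v, Pn v = num (κ.n.eval (len v))) {SF : Tr → Tr → Tr} {σ : Tr}
    {Sol : List Bool → Prop} (hSF : ∀ t, SF σ t ≠ leaf ↔ Sol (dec t)) (cf cg : Tr)
    (Ω : Tr → List Bool → Bool) (θ K S : Tr) (x : List Bool)
    (h : Bad (Ω θ) κ cf cg (len K) (len S) x Sol) :
    ∃ c, size c ≤ len S * (4 * κ.n.eval (len K) + 2) + 2 ∧
      badT κ Pk Pn SF cf cg Ω θ K S (enc x) σ c ≠ leaf := by
  obtain ⟨h0, h1, h2⟩ := h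
  obtain ⟨g, hg⟩ := ch_complete hk hn cf Ω θ K x h1
  obtain ⟨h3, h4, ok, h5, h6⟩ := hg leaf
  have hl : len (g leaf) = len h0 := by simpa [len] using h4
  refine ⟨g leaf, ?_, ?_⟩
  · have h7 := HU_size h1
    have h8 : len h0 ≤ len S := by
      rcases h2 with ⟨h2, _⟩ | ⟨h2, _⟩ <;> omega
    have h9 : len h0 * (4 * κ.n.eval (len K) + 2) ≤ len S * (4 * κ.n.eval (len K) + 2) :=
      Nat.mul_le_mul_right _ h8
    simp only [size] at h3
    omega
  · unfold badT
    rw [hl, h6]
    simp only [fst_node, snd_node]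
    rw [cs_neg _ _ h5]
    exact (finT_spec hSF cf cg (Ω θ) K S x h0).mpr h2

/-! ### these tests are computable in polynomial time -/

theorem FP.valΩ {Ω : Tr → List Bool → Bool} (hΩ : FPO O Ω) (κ : Cand) {Pk Pn : Tr → Tr}
    (hk : ∀ F, FP O F → FP O (fun v => Pk (F v))) (hn : ∀ F, FP O F → FP O (fun v => Pn (F v)))
    (cf : Tr) {E K X ok h a : Tr → Tr} (hE : FP O E) (hK : FP O K) (hX : FP O X)
    (hok : FP O ok) (hh : FP O h) (ha : FP O a) :
    FP O (fun v => valT κ Pk Pn cf (Ω (E v)) (K v) (X v) (ok v) (h v) (a v)) := by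
  have h1 := FP.UΩ (Ω := Ω) hΩ hE (FP.const' cf) (FP.node' hX hh) hK
  have h2 := FP.norm' (FP.snd' h1)
  have h3 := FP.usΩ (Ω := Ω) hΩ hE (FP.const' (num κ.i)) (hk _ h2) (hn _ h2) h2 ha
  have h4 := FP.cs' hok FP.leaf' (FP.cs' h1 FP.leaf' (FP.cs' h3 FP.leaf' (FP.const' tt)))
  exact h4

theorem FP.chΩ {Ω : Tr → List Bool → Bool} (hΩ : FPO O Ω) (κ : Cand) {Pk Pn : Tr → Tr}
    (hk : ∀ F, FP O F → FP O (fun v => Pk (F v))) (hn : ∀ F, FP O F → FP O (fun v => Pn (F v)))
    (cf : Tr) : FP O (chstep κ Pk Pn cf Ω) := by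
  have h1 : FP O (fun s => fst s) := FP.fst' FP.id'
  have h2 : FP O (fun s => snd s) := FP.snd' FP.id'
  have h3 := FP.snd' h2
  have h4 := FP.snd' h3
  have h5 := FP.norm' (FP.fst' h4)
  have h6 := FP.valΩ hΩ κ hk hn cf (FP.fst' h1) (FP.fst' (FP.snd' h1)) (FP.snd' (FP.snd' h1))
    (FP.fst' h2) (FP.fst' h3) h5
  have h7 := FP.cs' h4 FP.id' (FP.node' h1 (FP.node' h6 (FP.node' (FP.node' h5 (FP.fst' h3))
    (FP.snd' h4))))
  exact h7

theorem chstep_bound (κ : Cand) (Pk Pn : Tr → Tr) (cf : Tr) (Ω : Tr → List Bool → Bool) (x : Tr)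
    (i : ℕ) : (chstep κ Pk Pn cf Ω)^[i] x = x ∨
      ∃ ok h c, (chstep κ Pk Pn cf Ω)^[i] x = node (fst x) (node ok (node h c)) ∧
        size ok ≤ 3 ∧ size h + 5 * size c ≤ 6 * size x := by
  induction i with
  | zero => exact Or.inl rfl
  | succ i ih =>
    rw [Function.iterate_succ_apply']
    rcases ih with ih | ⟨ok, h, c, h1, h2, h3⟩
    · rw [ih]
      unfold chstep
      by_cases hc : snd (snd (snd x)) = leaf
      · rw [cs_pos _ _ hc]; exact Or.inl rfl
      · rw [cs_neg _ _ hc]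
        refine Or.inr ⟨_, _, _, rfl, valT_size _ _ _ _ _ _ _ _ _ _, ?_⟩
        have e1 : size (norm (fst (snd (snd (snd x))))) ≤ 4 * size (fst (snd (snd (snd x)))) + 1 := by
          rw [norm_eq]
          have a1 := size_enc_le (dec (fst (snd (snd (snd x)))))
          rw [length_dec] at a1
          have a2 := len_le_size (fst (snd (snd (snd x))))
          omega
        have e2 : size (fst (snd (snd x))) + size (fst (snd (snd (snd x)))) +
            size (snd (snd (snd (snd x)))) + 2 ≤ size x := by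
          cases x with
          | leaf => simp at hc
          | node a x =>
            cases x with
            | leaf => simp at hc
            | node b x =>
              cases x with
              | leaf => simp at hc
              | node d x =>
                cases x with
                | leaf => simp at hc
                | node e x => simp only [snd_node, fst_node, size]; omega
        simp only [size]
        omega
    · rw [h1]
      unfold chstep
      simp only [snd_node, fst_node]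
      by_cases hc : c = leaf
      · rw [cs_pos _ _ hc]; exact Or.inr ⟨ok, h, c, rfl, h2, h3⟩
      · rw [cs_neg _ _ hc]
        refine Or.inr ⟨_, _, _, rfl, valT_size _ _ _ _ _ _ _ _ _ _, ?_⟩
        cases c with
        | leaf => exact absurd rfl hc
        | node a c =>
          simp only [fst_node, snd_node, norm_eq, size] at h3 ⊢
          have a1 := size_enc_le (dec a)
          rw [length_dec] at a1
          have a2 := len_le_size a
          omega

theorem FP.badΩ {Ω : Tr → List Bool → Bool} (hΩ : FPO O Ω) (κ : Cand) {Pk Pn : Tr → Tr}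
    (hk : ∀ F, FP O F → FP O (fun v => Pk (F v))) (hn : ∀ F, FP O F → FP O (fun v => Pn (F v)))
    {SF : Tr → Tr → Tr}
    (hSF : ∀ F G, FP O F → FP O G → FP O (fun v => SF (F v) (G v))) (cf cg : Tr)
    {θ K S X σ c : Tr → Tr} (hθ : FP O θ) (hK : FP O K) (hS : FP O S) (hX : FP O X)
    (hσ : FP O σ) (hc : FP O c) :
    FP O (fun v => badT κ Pk Pn SF cf cg Ω (θ v) (K v) (S v) (X v) (σ v) (c v)) := by
  have h1 : FP O (fun v => (chstep κ Pk Pn cf Ω)^[len (c v)]
      (node (node (θ v) (node (K v) (X v))) (node tt (node leaf (c v))))) := by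
    refine FP.iterate' (FP.chΩ hΩ κ hk hn cf) hc (FP.node' (FP.node' hθ (FP.node' hK hX))
      (FP.node' (FP.const' tt) (FP.node' FP.leaf' hc))) ⟨7 * Polynomial.X + 10,
        fun n x i _ => ?_⟩
    simp only [Polynomial.eval_add, Polynomial.eval_mul, Polynomial.eval_ofNat,
      Polynomial.eval_X]
    rcases chstep_bound κ Pk Pn cf Ω x i with h | ⟨ok, h, c, h1, h2, h3⟩
    · rw [h]; omega
    · rw [h1]
      simp only [size]
      have := size_fst_le x
      omega
  have h2 := FP.fst' (FP.snd' (FP.snd' h1))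
  have h3 := FP.UΩ (Ω := Ω) hΩ hθ (FP.const' cf) (FP.node' hX h2) hK
  have h4 := FP.UΩ (Ω := Ω) hΩ hθ (FP.const' cg) (FP.node' hX h2) hK
  have h5 := FP.cs' (FP.fst' (FP.snd' h1)) FP.leaf'
    (FP.cs' (FP.dropU' hS (FP.node' FP.leaf' h2)) (FP.cs' h3 (FP.const' tt) FP.leaf')
      (FP.cs' (FP.dropU' hS h2) (FP.cs' h4 (FP.const' tt)
        (FP.cs' (hSF _ _ hσ (FP.snd' h4)) (FP.const' tt) FP.leaf')) FP.leaf'))
  exact h5

theorem rpn_length (t : Tr) : (rpn t).length = size t := by
  induction t with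
  | leaf => rfl
  | node a b iha ihb => simp [rpn, size, iha, ihb]; ring

theorem decode_rpn (t : Tr) : decode (rpn t) = t := by simpa using decode_pad 0 t

end Pool.Agent.H65.TS
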