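import Pool.Agent.H65.TS.Large

set_option autoImplicit false

/-!
# If NP ≠ coNP then there is no complete search problem relative to some tally oracle
-/

namespace Pool.Agent.H65.TS

open Pool.Agent.H88.RO Pool.Agent.H88.RO.Tr

/-! ### regions of the oracle and their contents -/

/-- the bits in region number `n` -/
def bits (f : ℕ → Bool) (n : ℕ) : List Bool := (List.range n).map (fun t => f (n * n + t))

@[simp] theorem bits_length (f : ℕ → Bool) (n : ℕ) : (bits f n).length = n := by simp [bits]

theorem bits_congr {f g : ℕ → Bool} {n : ℕ} (h : Agr ((n + 1) * (n + 1)) f g) :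
    bits f n = bits g n := by
  unfold bits
  apply List.map_congr_left
  intro t ht
  rw [List.mem_range] at ht
  exact h _ (by nlinarith)

/-- the content of region number `n`: an owner and a string -/
def con (f : ℕ → Bool) (n : ℕ) : Option (ℕ × List Bool) :=
  if (prs (bits f n)).1 = 0 then none else some ((prs (bits f n)).1 - 1, (prs (bits f n)).2)

theorem con_eq_some {f : ℕ → Bool} {n i : ℕ} {w : List Bool} :
    con f n = some (i, w) ↔ (prs (bits f n)).1 = i + 1 ∧ (prs (bits f n)).2 = w := by
  unfold con
  split_ifs with h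
  · simp [h]
  · rw [Option.some.injEq, Prod.mk.injEq]
    constructor
    · rintro ⟨h1, h2⟩; exact ⟨by omega, h2⟩
    · rintro ⟨h1, h2⟩; exact ⟨by omega, h2⟩

/-! ### the problem owned by candidate `i` -/

/-- the relation of the problem `S i` -/
def SR (Q : List Bool → List Bool → Bool) (pL : Polynomial ℕ) (F : ℕ → Bool) (i : ℕ)
    (x y : List Bool) : Prop :=
  (prs (bits F x.length)).1 = i + 1 →
    y.length ≤ pL.eval (prs (bits F x.length)).2.length ∧
      Q (prs (bits F x.length)).2 y = true

/-- program reading the bits in the region -/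
def bT (O : List Bool → Bool) (x : Tr) : Tr :=
  rd O x (onesPre (addU (mulU x x) (ulen x)) leaf) leaf

theorem bT_eq (F : ℕ → Bool) (B : List Bool → Bool) (x : List Bool) :
    bT (join (tal F) B) (enc x) = enc (bits F x.length) := by
  have h1 := rd_eq (tal F) B (x.length * x.length) (enc x) []
  rw [List.append_nil, len_enc] at h1
  have h2 : seg (tal F) (x.length * x.length) x.length = bits F x.length := by
    simp [seg, bits, tal_replicate]
  rw [h2] at h1
  rw [bT, onesPre_leaf, ulen_eq, addU_num', mulU_eq, len_num, len_num, len_enc]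
  exact h1

theorem FP.bT' {O : List Bool → Bool} {F : Tr → Tr} (hF : FP O F) : FP O (fun v => bT O (F v)) :=
  FP.rd' hF (FP.onesPre' (FP.addU' (FP.mulU' hF hF) (FP.ulen' hF)) FP.leaf') FP.leaf'

open Classical in
theorem polyTime_SR {B : List Bool → Bool} {Q : List Bool → List Bool → Bool}
    (hQ : PolyTimeRel B Q) (pL : Polynomial ℕ) (F : ℕ → Bool) (i : ℕ) :
    PolyTimeRel (join (tal F) B) (fun x y => decide (SR Q pL F i x y)) := by
  obtain ⟨P, hP1, hP2⟩ := exists_polyT pL
  have hQ' : PolyTimeRel (join (tal F) B) Q := PolyTimeRel.lift' hQ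
  have hx : FP (join (tal F) B) (fun v => fst v) := FP.fst' FP.id'
  have hy : FP (join (tal F) B) (fun v => snd v) := FP.snd' FP.id'
  have hb := FP.parseT' (FP.bT' hx)
  have h1 := FP.cs' (FP.eqL' (FP.fst' hb) (FP.const' (num (i + 1)))) (FP.const' tt)
    (FP.qT' hQ' (hP2 _) (FP.fst' (FP.snd' hb)) hy)
  refine polyTimeRel_of_FP h1 (fun x y => ?_)
  rw [decide_eq_true_eq]
  unfold SR
  simp only [fst_node, snd_node]
  rw [bT_eq, fst_parseT, snd_parseT]
  by_cases h : (prs (bits F x.length)).1 = i + 1
  · rw [cs_neg _ _ ((eqL_spec _ _).mpr (by rw [len_num, len_num]; exact h)), qT_spec hP1,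
      dec_enc, dec_enc]
    simp [h]
  · rw [cs_pos _ _ (by
      by_contra hcon
      have := (eqL_spec _ _).mp hcon
      rw [len_num, len_num] at this
      exact h this)]
    simp [h]

open Classical in
/-- the problem `S i` -/
noncomputable def Sprob (B : List Bool → Bool) {Q : List Bool → List Bool → Bool}
    (hQ : PolyTimeRel B Q) (pL : Polynomial ℕ) (F : ℕ → Bool) (i : ℕ)
    (hg : ∀ n w, con F n = some (i, w) →
      ∃ y : List Bool, y.length ≤ pL.eval w.length ∧ Q w y = true) : TFNP (join (tal F) B) where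
  R := fun x y => decide (SR Q pL F i x y)
  p := pL
  polyTime := polyTime_SR hQ pL F i
  total := by
    intro x
    simp only [decide_eq_true_eq]
    by_cases h : (prs (bits F x.length)).1 = i + 1
    · obtain ⟨y, h1, h2⟩ := hg x.length _ (con_eq_some.mpr ⟨h, rfl⟩)
      refine ⟨y, h1.trans (poly_mono _ ?_), fun _ => ⟨h1, h2⟩⟩
      have := prs_le (bits F x.length)
      rw [bits_length] at this
      omega
    · exact ⟨[], by simp, fun h' => absurd h' h⟩

/-! ### writing a string into a region -/

/-- the table of the oracle which agrees with `f` before region `r0` and has the string `w`,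
owned by `i`, in region number `i + 2 + |w|` -/
def lst (f : ℕ → Bool) (r0 i : ℕ) (w : List Bool) : List Bool :=
  (List.range (r0 * r0)).map f ++
    (List.replicate ((i + 2 + w.length) * (i + 2 + w.length) - r0 * r0) false ++
      (List.replicate (i + 1) true ++ false :: w))

/-- the corresponding oracle -/
def upd (f : ℕ → Bool) (r0 i : ℕ) (w : List Bool) (k : ℕ) : Bool := (lst f r0 i w).getD k false

theorem upd_lt {f : ℕ → Bool} {r0 i : ℕ} {w : List Bool} {k : ℕ} (hk : k < r0 * r0) :
    upd f r0 i w k = f k := by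
  rw [upd, lst, List.getD_append _ _ _ _ (by simpa using hk)]
  rw [List.getD_eq_getElem?_getD]
  simp [hk]

theorem upd_zero {f : ℕ → Bool} {r0 i : ℕ} {w : List Bool} {k : ℕ} (hk : r0 * r0 ≤ k)
    (hk' : k < (i + 2 + w.length) * (i + 2 + w.length)) : upd f r0 i w k = false := by
  rw [upd, lst, List.getD_append_right _ _ _ _ (by simpa using hk)]
  rw [List.getD_append _ _ _ _ (by simp; omega)]
  rw [List.getD_eq_getElem?_getD]
  simp only [List.length_map, List.length_range]
  rw [List.getElem?_replicate]
  split_ifs <;> rfl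

theorem upd_region {f : ℕ → Bool} {r0 i : ℕ} {w : List Bool} (hr : r0 ≤ i + 2 + w.length)
    (t : ℕ) : upd f r0 i w ((i + 2 + w.length) * (i + 2 + w.length) + t) =
      (List.replicate (i + 1) true ++ false :: w).getD t false := by
  have h1 : r0 * r0 ≤ (i + 2 + w.length) * (i + 2 + w.length) := Nat.mul_le_mul hr hr
  rw [upd, lst, List.getD_append_right _ _ _ _ (by simp; omega)]
  rw [List.getD_append_right _ _ _ _ (by simp; omega)]
  congr 1
  simp
  omega

theorem upd_agr {f : ℕ → Bool} {r0 i : ℕ} {w : List Bool} : Agr (r0 * r0) f (upd f r0 i w) :=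
  fun _ hk => (upd_lt hk).symm

theorem bits_upd {f : ℕ → Bool} {r0 i : ℕ} {w : List Bool} (hr : r0 ≤ i + 2 + w.length) :
    bits (upd f r0 i w) (i + 2 + w.length) = List.replicate (i + 1) true ++ false :: w := by
  apply List.ext_getElem
  · simp; omega
  · intro t h1 h2
    simp only [bits, List.getElem_map, List.getElem_range]
    rw [upd_region hr, List.getD_eq_getElem _ _ h2]

theorem bits_upd_other {f : ℕ → Bool} {r0 i r : ℕ} {w : List Bool}
    (hr : r0 ≤ i + 2 + w.length) (hr0 : r0 ≤ r) (hne : r ≠ i + 2 + w.length) :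
    bits (upd f r0 i w) r = List.replicate r false := by
  apply List.ext_getElem
  · simp
  · intro t h1 h2
    simp only [bits_length] at h1
    simp only [bits, List.getElem_map, List.getElem_range, List.getElem_replicate]
    rcases Nat.lt_or_ge r (i + 2 + w.length) with h | h
    · apply upd_zero
      · have : r0 * r0 ≤ r * r := Nat.mul_le_mul hr0 hr0
        omega
      · have : (r + 1) * (r + 1) ≤ (i + 2 + w.length) * (i + 2 + w.length) :=
          Nat.mul_le_mul (by omega) (by omega)
        nlinarith
    · have h3 : (i + 2 + w.length + 1) * (i + 2 + w.length + 1) ≤ r * r :=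
        Nat.mul_le_mul (by omega) (by omega)
      have h4 : r * r + t = (i + 2 + w.length) * (i + 2 + w.length) +
          (r * r + t - (i + 2 + w.length) * (i + 2 + w.length)) := by
        have : (i + 2 + w.length) * (i + 2 + w.length) ≤ r * r := Nat.mul_le_mul h h
        omega
      rw [h4, upd_region hr, List.getD_eq_default]
      simp only [List.length_append, List.length_replicate, List.length_cons]
      have h5 : (i + 2 + w.length + 1) * (i + 2 + w.length + 1) =
        (i + 2 + w.length) * (i + 2 + w.length) + 2 * (i + 2 + w.length) + 1 := by ring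
      omega

theorem con_upd {f : ℕ → Bool} {r0 i : ℕ} {w : List Bool} (hr : r0 ≤ i + 2 + w.length) :
    con (upd f r0 i w) (i + 2 + w.length) = some (i, w) := by
  rw [con_eq_some, bits_upd hr, prs_ones]
  exact ⟨rfl, rfl⟩

theorem con_upd_some {f : ℕ → Bool} {r0 i r i' : ℕ} {w w' : List Bool}
    (hr : r0 ≤ i + 2 + w.length) (hr0 : r0 ≤ r) (h : con (upd f r0 i w) r = some (i', w')) :
    i' = i ∧ w' = w := by
  by_cases hne : r = i + 2 + w.length
  · subst hne
    rw [con_upd hr, Option.some.injEq, Prod.mk.injEq] at h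
    exact ⟨h.1.symm, h.2.symm⟩
  · exfalso
    rw [con_eq_some, bits_upd_other hr hr0 hne] at h
    cases r with
    | zero => simp [prs, parse] at h
    | succ r => simp [List.replicate_succ, prs, parse] at h

/-- program for the region number -/
def nT (i : ℕ) (w : Tr) : Tr := addU (num (i + 2)) (ulen w)

theorem nT_eq (i : ℕ) (w : List Bool) : nT i (enc w) = num (i + 2 + w.length) := by
  rw [nT, ulen_eq, addU_num', len_num, len_enc]

/-- program for `lst` -/
def thT (f : ℕ → Bool) (r0 i : ℕ) (w : Tr) : Tr :=
  preT ((List.range (r0 * r0)).map f) (addU (dropU (num (r0 * r0)) (mulU (nT i w) (nT i w)))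
    (onesPre (num (i + 1)) (node leaf w)))

theorem thT_eq (f : ℕ → Bool) (r0 i : ℕ) (w : List Bool) :
    thT f r0 i (enc w) = enc (lst f r0 i w) := by
  have e1 : node leaf (enc w) = enc (false :: w) := rfl
  have e2 : len (dropU (num (r0 * r0)) (mulU (num (i + 2 + w.length)) (num (i + 2 + w.length)))) =
      (i + 2 + w.length) * (i + 2 + w.length) - r0 * r0 := by
    rw [dropU, len_snd_iter, mulU_eq, len_num, len_num, len_num]
  rw [thT, nT_eq, e1, onesPre_enc, addU_enc, preT_enc, e2, len_num, lst]

theorem FP.nT' {O : List Bool → Bool} (i : ℕ) {F : Tr → Tr} (hF : FP O F) :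
    FP O (fun v => nT i (F v)) := FP.addU' (FP.const' _) (FP.ulen' hF)

theorem FP.thT' {O : List Bool → Bool} (f : ℕ → Bool) (r0 i : ℕ) {F : Tr → Tr} (hF : FP O F) :
    FP O (fun v => thT f r0 i (F v)) :=
  FP.preT' _ (FP.addU' (FP.dropU' (FP.const' _) (FP.mulU' (FP.nT' i hF) (FP.nT' i hF)))
    (FP.onesPre' (FP.const' _) (FP.node' FP.leaf' hF)))

theorem tab_lst (f : ℕ → Bool) (r0 i : ℕ) (w : List Bool) :
    tab (enc (lst f r0 i w)) = tal (upd f r0 i w) := by
  rw [tab_eq]
  rfl

/-- the solutions for a string of the language -/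
def QSol (Q : List Bool → List Bool → Bool) (pL : Polynomial ℕ) (w y : List Bool) : Prop :=
  y.length ≤ pL.eval w.length ∧ Q w y = true

open Classical in
/-- failure of the reduction is an NP property of the string written into the oracle -/
theorem inNP_bad (B : List Bool → Bool) (κ : Cand) (cf cg : Tr) (K s : Polynomial ℕ)
    {Q : List Bool → List Bool → Bool} (hQ : PolyTimeRel B Q) (pL : Polynomial ℕ)
    (f : ℕ → Bool) (r0 i : ℕ) {X : Set (List Bool)}
    (hX : ∀ w : List Bool, r0 ≤ w.length → (w ∈ X ↔
      Bad (join (tal (upd f r0 i w)) B) κ cf cg (K.eval (i + 2 + w.length))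
        (s.eval (i + 2 + w.length)) (List.replicate (i + 2 + w.length) true) (QSol Q pL w))) :
    InNP B X := by
  obtain ⟨Pk, hk1, hk2⟩ := exists_polyT κ.k
  obtain ⟨Pn, hn1, hn2⟩ := exists_polyT κ.n
  obtain ⟨PL, hL1, hL2⟩ := exists_polyT pL
  obtain ⟨PK, hK1, hK2⟩ := exists_polyT K
  obtain ⟨PS, hS1, hS2⟩ := exists_polyT s
  have hw : FP B (fun v => fst v) := FP.fst' FP.id'
  have hz : FP B (fun v => snd v) := FP.snd' FP.id'
  have hF := FP.badΩ (Ω := fun α => join (tab α) B) (FPO.tab B) κ (hk2 B) (hn2 B)
    (SF := qT Q PL) (fun F G hF hG => FP.qT' hQ (hL2 B) hF hG) cf cg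
    (θ := fun v => thT f r0 i (fst v)) (K := fun v => PK (nT i (fst v)))
    (S := fun v => PS (nT i (fst v))) (X := fun v => onesPre (nT i (fst v)) leaf)
    (σ := fun v => fst v) (c := fun v => decodeT (snd v))
    (FP.thT' f r0 i hw) (hK2 B _ (FP.nT' i hw)) (hS2 B _ (FP.nT' i hw))
    (FP.onesPre' (FP.nT' i hw) FP.leaf') hw (FP.decodeT' hz)
  have hR := polyTimeRel_of_FP hF (R := fun w z => decide (badT κ Pk Pn (qT Q PL) cf cg
    (fun α => join (tab α) B) (thT f r0 i (enc w)) (PK (nT i (enc w))) (PS (nT i (enc w)))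
    (onesPre (nT i (enc w)) leaf) (enc w) (decodeT (enc z)) ≠ leaf))
    (fun x y => by rw [decide_eq_true_eq]; rfl)
  refine InNP.of_large r0 (p := s.comp (Polynomial.X + Polynomial.C (i + 2)) *
    (4 * κ.n.comp (K.comp (Polynomial.X + Polynomial.C (i + 2))) + 2) + 2) hR (fun w hw => ?_)
  have hSF : ∀ t, qT Q PL (enc w) t ≠ leaf ↔ QSol Q pL w (dec t) := by
    intro t
    rw [qT_spec hL1, dec_enc]
    rfl
  have e1 : len (PK (num (i + 2 + w.length))) = K.eval (i + 2 + w.length) := by
    rw [hK1, len_num, len_num]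
  have e2 : len (PS (num (i + 2 + w.length))) = s.eval (i + 2 + w.length) := by
    rw [hS1, len_num, len_num]
  rw [hX w hw, ← tab_lst, ← e1, ← e2]
  simp only [decide_eq_true_eq]
  constructor
  · intro hB
    obtain ⟨c, hc1, hc2⟩ := badT_complete hk1 hn1 hSF cf cg (fun α => join (tab α) B)
      (enc (lst f r0 i w)) (PK (num (i + 2 + w.length))) (PS (num (i + 2 + w.length)))
      (List.replicate (i + 2 + w.length) true) hB
    refine ⟨rpn c, ?_, ?_⟩
    · rw [rpn_length]
      rw [e1, e2] at hc1
      simp only [Polynomial.eval_add, Polynomial.eval_mul, Polynomial.eval_comp,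
        Polynomial.eval_X, Polynomial.eval_C, Polynomial.eval_ofNat]
      rw [show w.length + (i + 2) = i + 2 + w.length by ring]
      exact hc1
    · rw [nT_eq, thT_eq, onesPre_leaf, len_num, decodeT_enc, decode_rpn]
      exact hc2
  · rintro ⟨z, _, hz2⟩
    rw [nT_eq, thT_eq, onesPre_leaf, len_num] at hz2
    exact badT_sound hk1 hn1 hSF cf cg (fun α => join (tab α) B)
      (enc (lst f r0 i w)) (PK (num (i + 2 + w.length))) (PS (num (i + 2 + w.length)))
      (List.replicate (i + 2 + w.length) true) _ hz2

/-! ### the theorem -/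

open Classical in
/-- If NP is not closed under complements relative to `B`, then relative to `B` and some tally
oracle no total NP search problem is complete, not even under Turing reductions, and not even
for the problems whose relation depends on the instance through its length only. -/
theorem exists_no_complete (B : List Bool → Bool) {L : Set (List Bool)} (hL : InNP B L)
    (hLc : ¬ InNP B Lᶜ) : ∃ F : ℕ → Bool, ∀ T : TFNP (join (tal F) B),
      ∃ S : TFNP (join (tal F) B),
        (∀ x x' y, x.length = x'.length → S.R x y = S.R x' y) ∧ ¬ TuringReduces S T := by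
  obtain ⟨Q, pL, hQ, hLQ⟩ := hL
  obtain ⟨ec, hec⟩ := exists_enum_cand
  obtain ⟨er, her⟩ := exists_enum_red
  have hloc : ∀ (f g : ℕ → Bool) (b : ℕ), Agr (b + 1) f g →
      ∀ q : List Bool, q.length ≤ b → join (tal g) B q = join (tal f) B q := by
    intro f g b h q hq
    exact join_tal_congr B (fun k hk => (h k (by omega)).symm)
  obtain ⟨F, hF⟩ := forcing (fun n => n * n) (fun n => Nat.le_mul_self n)
    (fun a b h => Nat.mul_le_mul h h) con
    (fun f g r h => by unfold con; rw [bits_congr h])
    (fun w => w ∈ L)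
    (fun i f => CTot (join (tal f) B) (ec i))
    (fun i f h => by
      obtain ⟨b, hb⟩ := not_CTot_local h
      exact ⟨b + 1, fun g hg => hb _ (hloc f g b hg)⟩)
    (fun i j f => ∃ n w, con f n = some (i, w) ∧ Bad (join (tal f) B) (ec i) (er j).1 (er j).2.1
      ((er j).2.2.1.eval n) ((er j).2.2.2.eval n) (List.replicate n true) (QSol Q pL w))
    (fun i j f h => by
      obtain ⟨n, w, h1, h2⟩ := h
      obtain ⟨b, hb⟩ := Bad_local h2
      refine ⟨max (b + 1) ((n + 1) * (n + 1)), fun g hg => ⟨n, w, ?_, ?_⟩⟩
      · rw [← h1]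
        unfold con
        rw [bits_congr (hg.mono (le_max_right _ _))]
      · exact hb _ (hloc f g b (hg.mono (le_max_left _ _))))
    (fun i j f r0 hT => by
      by_contra hcon
      push Not at hcon
      apply hLc
      refine inNP_bad B (ec i) (er j).1 (er j).2.1 (er j).2.2.1 (er j).2.2.2 hQ pL f r0 i
        (fun w hw => ?_)
      have hr : r0 ≤ i + 2 + w.length := by omega
      rw [Set.mem_compl_iff]
      by_cases hwL : w ∈ L
      · simp only [hwL, not_true_eq_false, false_iff]
        intro hB
        refine hcon (upd f r0 i w) upd_agr ?_ (i + 2 + w.length) w (con_upd hr) hB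
        intro r hr0 i' w' h
        rw [(con_upd_some hr hr0 h).2]
        exact hwL
      · simp only [hwL, not_false_eq_true, true_iff]
        refine bad_of_no_sol (hT _ upd_agr ?_) _ _ _ _ _ ?_
        · intro r hr0 i' w' h
          exact Or.inl (con_upd_some hr hr0 h).1
        · intro y hy
          exact hwL ((hLQ w).mpr ⟨y, hy⟩))
  refine ⟨F, fun T => ?_⟩
  obtain ⟨κ, hκ⟩ := exists_cand T
  obtain ⟨i, rfl⟩ := hec κ
  obtain ⟨h1, h2⟩ := hF i (fun x => by
    obtain ⟨y, hy⟩ := T.total x
    exact ⟨y, (hκ x y).mpr hy⟩)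
  have hg : ∀ n w, con F n = some (i, w) →
      ∃ y : List Bool, y.length ≤ pL.eval w.length ∧ Q w y = true :=
    fun n w h => (hLQ w).mp (h1 n w h)
  refine ⟨Sprob B hQ pL F i hg, ?_, ?_⟩
  · intro x x' y hx
    show decide (SR Q pL F i x y) = decide (SR Q pL F i x' y)
    unfold SR
    rw [hx]
  · rintro ⟨cf, cg, r, s, hred⟩
    obtain ⟨j, hj⟩ := her (code cf, code cg, rclk cf cg r, s)
    obtain ⟨n, w, h3, h4⟩ := h2 j
    rw [hj] at h4
    have h5 := not_bad hred hκ (List.replicate n true)
    apply h5
    rw [List.length_replicate]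
    have h6 : (Sprob B hQ pL F i hg).IsSol (List.replicate n true) = QSol Q pL w := by
      funext y
      obtain ⟨h7, h8⟩ := con_eq_some.mp h3
      have h9 : w.length ≤ n := by
        have := prs_le (bits F n)
        rw [bits_length, h8] at this
        omega
      have h10 := poly_mono pL h9
      apply propext
      show (y.length ≤ pL.eval (List.replicate n true).length ∧
        decide (SR Q pL F i (List.replicate n true) y) = true) ↔ _
      rw [decide_eq_true_eq]
      unfold SR QSol
      rw [List.length_replicate, h7, h8]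
      constructor
      · rintro ⟨_, h⟩; exact h rfl
      · intro h; exact ⟨h.1.trans h10, fun _ => h⟩
    rw [h6]
    exact h4

end Pool.Agent.H65.TS
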