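import Pool.Agent.H65.TS.Base

set_option autoImplicit false

/-!
# The universal machine with a parametrised oracle, and tables
-/

namespace Pool.Agent.H65.TS

open Pool.Agent.H88.RO Pool.Agent.H88.RO.Tr

variable {O : List Bool → Bool}

/-! ### parametrised oracles -/

/-- the oracles `Ω θ` are computable in polynomial time from `θ`, relative to `O` -/
def FPO (O : List Bool → Bool) (Ω : Tr → List Bool → Bool) : Prop :=
  ∀ {F G : Tr → Tr}, FP O F → FP O G → FP O (fun v => bit (Ω (F v) (dec (G v))))

theorem FP.stepΩ {Ω : Tr → List Bool → Bool} (hΩ : FPO O Ω) {E S : Tr → Tr} (hE : FP O E)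
    (hS : FP O S) : FP O (fun v => step (Ω (E v)) (S v)) := by
  have hq : FP O (fun v => bit (Ω (E v) (dec (fst (snd (S v)))))) :=
    hΩ hE (FP.fst' (FP.snd' hS))
  unfold step stepRet stepEv
  (repeat (first | assumption | with_reducible exact FP.id' | with_reducible apply FP.fst' | with_reducible apply FP.snd' | with_reducible apply FP.node' | with_reducible apply FP.ite' | with_reducible exact FP.const' _))

/-- tree version of the capped step; states are `node (node K θ) s` -/
def cstepΩ (Ω : Tr → List Bool → Bool) (x : Tr) : Tr :=
  node (fst x) (if sizeT (snd x) (fst (fst x)) = leaf then step (Ω (snd (fst x))) (snd x)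
    else leaf)

theorem cstepΩ_eq (Ω : Tr → List Bool → Bool) (K θ s : Tr) :
    cstepΩ Ω (node (node K θ) s) = node (node K θ) (cstep (Ω θ) (len K) s) := by
  unfold cstepΩ cstep
  simp only [fst_node, snd_node, sizeT_eq_leaf]

theorem cstepΩ_iter (Ω : Tr → List Bool → Bool) (n : ℕ) (K θ s : Tr) :
    (cstepΩ Ω)^[n] (node (node K θ) s) = node (node K θ) ((cstep (Ω θ) (len K))^[n] s) := by
  induction n generalizing s with
  | zero => rfl
  | succ n ih => rw [Function.iterate_succ_apply, cstepΩ_eq, ih, Function.iterate_succ_apply]

theorem FP.cstepΩ' {Ω : Tr → List Bool → Bool} (hΩ : FPO O Ω) : FP O (cstepΩ Ω) := by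
  unfold cstepΩ
  have h1 : FP O (fun v => fst v) := FP.fst' FP.id'
  have h2 : FP O (fun v => snd v) := FP.snd' FP.id'
  exact FP.node' h1 (FP.ite' (FP.sizeT' h2 (FP.fst' h1)) (FP.stepΩ hΩ (FP.snd' h1) h2) FP.leaf')

theorem FP.UΩ {Ω : Tr → List Bool → Bool} (hΩ : FPO O Ω) {E F G H : Tr → Tr} (hE : FP O E)
    (hF : FP O F) (hG : FP O G) (hH : FP O H) :
    FP O (fun v => U (Ω (E v)) (F v) (G v) (len (H v))) := by
  have h1 : FP O (fun v => (cstepΩ Ω)^[len (H v)] (node (node (H v) (E v))
      (node (F v) (node (G v) leaf)))) := by
    refine FP.iterate' (FP.cstepΩ' hΩ) hH (FP.node' (FP.node' hH hE) (FP.node' hF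
      (FP.node' hG FP.leaf'))) ⟨3 * Polynomial.X + 30, fun n x i _ => ?_⟩
    have h2 : ∀ i, fst ((cstepΩ Ω)^[i] x) = fst x := by
      intro i
      induction i with
      | zero => rfl
      | succ i ih => rw [Function.iterate_succ_apply']; simpa [cstepΩ] using ih
    simp only [Polynomial.eval_add, Polynomial.eval_mul, Polynomial.eval_ofNat, Polynomial.eval_X]
    cases i with
    | zero => simp; omega
    | succ i =>
      rw [Function.iterate_succ_apply']
      have h3 : cstepΩ Ω ((cstepΩ Ω)^[i] x) = node (fst x)
          (cstep (Ω (snd (fst x))) (len (fst (fst x))) (snd ((cstepΩ Ω)^[i] x))) := by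
        rw [cstepΩ, h2 i]
        simp only [sizeT_eq_leaf, cstep]
      rw [h3]
      have h4 := size_cstep_le (O := Ω (snd (fst x))) (len (fst (fst x)))
        (snd ((cstepΩ Ω)^[i] x))
      have h5 := len_le_size (fst (fst x))
      have h6 := size_fst_le x
      have h7 := size_fst_le (fst x)
      simp only [size]
      omega
  have h2 : FP O (fun v => out (len (fst (fst v))) (snd v)) := by
    have : (fun v => out (len (fst (fst v))) (snd v)) = fun v =>
        if sizeT (snd v) (fst (fst v)) = leaf then
          (if snd v = leaf then leaf else if fst (snd v) = leaf then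
          (if snd (snd (snd v)) = leaf then node leaf (fst (snd (snd v))) else leaf) else leaf)
        else leaf := by
      funext v
      simp only [out, sizeT_eq_leaf]
    rw [this]
    refine FP.ite' (FP.sizeT' (FP.snd' FP.id') (FP.fst' (FP.fst' FP.id'))) ?_ FP.leaf'
    (repeat (first | with_reducible exact FP.id' | assumption | with_reducible apply FP.fst' | with_reducible apply FP.snd' | with_reducible apply FP.node' | with_reducible apply FP.query' | with_reducible apply FP.ite' | with_reducible exact FP.const' _))
  have h3 := FP.comp' h2 h1
  have h4 : (fun v => U (Ω (E v)) (F v) (G v) (len (H v))) = fun v =>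
      out (len (fst (fst ((cstepΩ Ω)^[len (H v)] (node (node (H v) (E v))
        (node (F v) (node (G v) leaf)))))))
        (snd ((cstepΩ Ω)^[len (H v)] (node (node (H v) (E v))
          (node (F v) (node (G v) leaf))))) := by
    funext v
    rw [cstepΩ_iter]
    rfl
  rw [h4]
  exact h3

theorem FPO.const (O : List Bool → Bool) : FPO O (fun _ => O) :=
  fun {_ _} _ hG => FP.query' hG

/-! ### tables of tally oracles -/

/-- the tally oracle with a given table: the `n`-th bit of `α` is the value at `1^n` -/
def tab (α : Tr) : List Bool → Bool
  | [] => decide (fst α ≠ leaf)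
  | true :: q => tab (snd α) q
  | false :: _ => false

theorem tab_leaf (q : List Bool) : tab leaf q = false := by
  induction q with
  | nil => simp [tab]
  | cons b q ih => cases b <;> simp [tab, ih]

/-- the tally oracle given by a function on numbers -/
def tal (f : ℕ → Bool) (q : List Bool) : Bool :=
  decide (q = List.replicate q.length true) && f q.length

theorem tally_tal (f : ℕ → Bool) : Tally (tal f) := by
  intro w hw
  simp only [tal, Bool.and_eq_true, decide_eq_true_eq] at hw
  exact hw.1

theorem tal_replicate (f : ℕ → Bool) (n : ℕ) : tal f (List.replicate n true) = f n := by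
  simp [tal]

theorem tally_eq_tal {A : List Bool → Bool} (hA : Tally A) :
    A = tal (fun n => A (List.replicate n true)) := by
  funext w
  by_cases h : w = List.replicate w.length true
  · rw [tal, decide_eq_true h, Bool.true_and, ← h]
  · rw [tal, decide_eq_false h, Bool.false_and]
    by_contra hcon
    rw [Bool.not_eq_false] at hcon
    exact h (hA w hcon)

theorem tal_congr {f g : ℕ → Bool} {q : List Bool} (h : f q.length = g q.length) :
    tal f q = tal g q := by
  rw [tal, tal, h]

theorem tab_eq (l : List Bool) : tab (enc l) = tal (fun n => l.getD n false) := by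
  funext q
  induction q generalizing l with
  | nil =>
    cases l with
    | nil => simp [tab, tal, enc]
    | cons b l => cases b <;> simp [tab, tal, enc, bit]
  | cons b q ih =>
    cases b with
    | false => simp [tab, tal, List.replicate_succ]
    | true =>
      have e : snd (enc l) = enc l.tail := by cases l <;> rfl
      rw [tab, e, ih]
      have h1 : (true :: q = List.replicate (true :: q).length true) ↔
          q = List.replicate q.length true := by
        rw [List.length_cons, List.replicate_succ, List.cons.injEq]
        simp
      unfold tal
      simp only [h1]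
      congr 1
      cases l <;> simp

/-- one step of the table look-up; states are `node α q` -/
def lkstep (s : Tr) : Tr :=
  if snd s = leaf then s
  else if fst (snd s) = leaf then leaf else node (snd (fst s)) (snd (snd s))

/-- table look-up -/
def lk (α q : Tr) : Tr := fst (fst (lkstep^[len q] (node α q)))

theorem lkstep_leaf (n : ℕ) : lkstep^[n] leaf = leaf := by
  induction n with
  | zero => rfl
  | succ n ih => rw [Function.iterate_succ_apply]; simpa [lkstep] using ih

theorem lk_ne_leaf (α q : Tr) : lk α q ≠ leaf ↔ tab α (dec q) = true := by
  induction q generalizing α with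
  | leaf => simp [lk, len, dec, tab]
  | node a b _ ih =>
    rw [lk, len, Function.iterate_succ_apply]
    by_cases ha : a = leaf
    · subst ha
      have e : lkstep (node α (node leaf b)) = leaf := by simp [lkstep]
      rw [e, lkstep_leaf]
      simp [dec, tab]
    · have e : lkstep (node α (node a b)) = node (snd α) b := by simp [lkstep, ha]
      rw [e]
      have e2 : tab α (dec (node a b)) = tab (snd α) (dec b) := by
        simp [dec, ha, tab]
      rw [e2]
      exact ih (snd α)

theorem size_lkstep (s : Tr) : size (lkstep s) ≤ size s := by
  unfold lkstep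
  split_ifs with h1 h2
  · exact le_rfl
  · have := size_pos s; simpa [size] using this
  · cases s with
    | leaf => simp at h1
    | node a b =>
      have := size_snd_le a
      cases b with
      | leaf => simp at h1
      | node c d => simp only [fst_node, snd_node, size]; omega

theorem FP.lk' {F G : Tr → Tr} (hF : FP O F) (hG : FP O G) : FP O (fun v => lk (F v) (G v)) := by
  have hd : FP O lkstep := by
    unfold lkstep
    (repeat (first | with_reducible exact FP.id' | assumption | with_reducible apply FP.fst' | with_reducible apply FP.snd' | with_reducible apply FP.node' | with_reducible apply FP.query' | with_reducible apply FP.ite' | with_reducible exact FP.const' _))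
  exact FP.fst' (FP.fst' (FP.iterate_add hd hG (FP.node' hF hG) 0
    (fun x => by have := size_lkstep x; omega)))

/-- the oracle `join (tab α) B` is computable from `α` relative to `B` -/
theorem FPO.tab (B : List Bool → Bool) : FPO B (fun α => join (tab α) B) := by
  intro F G hF hG
  have h : (fun v => bit (join (TS.tab (F v)) B (dec (G v)))) = fun v =>
      cs (G v) leaf (cs (fst (G v)) (cs (lk (F v) (snd (G v))) leaf tt)
        (bit (B (dec (snd (G v)))))) := by
    funext v
    cases hq : G v with
    | leaf => simp [dec, join, bit]
    | node a b =>
      rw [cs_neg _ _ (by simp), fst_node, snd_node]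
      by_cases ha : a = leaf
      · subst ha
        rw [cs_leaf]
        have e : join (TS.tab (F v)) B (dec (node leaf b)) = TS.tab (F v) (dec b) := by
          simp [dec, join]
        rw [e]
        by_cases h1 : TS.tab (F v) (dec b) = true
        · rw [cs_neg _ _ ((lk_ne_leaf _ _).mpr h1), h1]; rfl
        · rw [cs_pos _ _ (by
            by_contra hcon
            exact h1 ((lk_ne_leaf _ _).mp hcon))]
          rw [Bool.not_eq_true] at h1
          rw [h1]; rfl
      · rw [cs_neg _ _ ha]
        have e : join (TS.tab (F v)) B (dec (node a b)) = B (dec b) := by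
          simp [dec, ha, join]
        rw [e]
  rw [h]
  exact FP.cs' hG FP.leaf' (FP.cs' (FP.fst' hG) (FP.cs' (FP.lk' hF (FP.snd' hG)) FP.leaf'
    (FP.const' _)) (FP.query' (FP.snd' hG)))

theorem FP.UTab {B : List Bool → Bool} {E F G H : Tr → Tr} (hE : FP B E)
    (hF : FP B F) (hG : FP B G) (hH : FP B H) :
    FP B (fun v => U (join (TS.tab (E v)) B) (F v) (G v) (len (H v))) :=
  FP.UΩ (Ω := fun α => join (TS.tab α) B) (E := E) (F := F) (G := G) (H := H) (FPO.tab B)
    hE hF hG hH

/-! ### reading the table of the oracle -/

/-- one step of the reading; states are `node w acc` -/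
def rdstep (O : List Bool → Bool) (s : Tr) : Tr :=
  node (snd (fst s)) (node (bit (O (dec (node leaf (snd (fst s)))))) (snd s))

/-- read `len c` bits, the last one at `1^(len w - 1)`, and put them in front of `acc` -/
def rd (O : List Bool → Bool) (c w acc : Tr) : Tr := snd ((rdstep O)^[len c] (node w acc))

theorem FP.rd' {F G H : Tr → Tr} (hF : FP O F) (hG : FP O G) (hH : FP O H) :
    FP O (fun v => rd O (F v) (G v) (H v)) := by
  have hd : FP O (rdstep O) := by
    unfold rdstep
    (repeat (first | with_reducible exact FP.id' | assumption | with_reducible apply FP.fst' | with_reducible apply FP.snd' | with_reducible apply FP.node' | with_reducible apply FP.query' | with_reducible apply FP.ite' | with_reducible exact FP.const' _))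
  refine FP.snd' (FP.iterate_add hd hF (FP.node' hG hH) 10 (fun x => ?_))
  unfold rdstep
  have h1 := size_bit_le (O (dec (node leaf (snd (fst x)))))
  have h2 := size_snd_le (fst x)
  have h3 : size (fst x) + size (snd x) ≤ size x + 1 := by
    cases x with
    | leaf => simp [size]
    | node p q => simp [size]; omega
  simp only [size]
  omega

/-- the values of a tally oracle at `1^a, ..., 1^(a+c-1)` -/
def seg (A : List Bool → Bool) (a c : ℕ) : List Bool :=
  (List.range c).map (fun t => A (List.replicate (a + t) true))

@[simp] theorem seg_length (A : List Bool → Bool) (a c : ℕ) : (seg A a c).length = c := by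
  simp [seg]

theorem seg_succ (A : List Bool → Bool) (a c : ℕ) :
    seg A a (c + 1) = seg A a c ++ [A (List.replicate (a + c) true)] := by
  simp [seg, List.range_succ]

theorem rd_iter (A B : List Bool → Bool) (a c : ℕ) (l : List Bool) :
    (rdstep (join A B))^[c] (node (enc (List.replicate (a + c) true)) (enc l)) =
      node (enc (List.replicate a true)) (enc (seg A a c ++ l)) := by
  induction c generalizing l with
  | zero => simp [seg]
  | succ c ih =>
    rw [Function.iterate_succ_apply]
    have e : rdstep (join A B) (node (enc (List.replicate (a + (c + 1)) true)) (enc l)) =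
        node (enc (List.replicate (a + c) true))
          (enc (A (List.replicate (a + c) true) :: l)) := by
      rw [show a + (c + 1) = (a + c) + 1 by ring, List.replicate_succ]
      simp only [rdstep, enc, fst_node, snd_node]
      congr 2
      have e2 : dec (node leaf (enc (List.replicate (a + c) true))) =
          false :: List.replicate (a + c) true := by
        show decide (leaf ≠ leaf) :: _ = _
        rw [dec_enc]
        simp
      rw [e2]
      rfl
    rw [e, ih, seg_succ]
    simp

theorem rd_eq (A B : List Bool → Bool) (a : ℕ) (c : Tr) (l : List Bool) :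
    rd (join A B) c (enc (List.replicate (a + len c) true)) (enc l) =
      enc (seg A a (len c) ++ l) := by
  rw [rd, rd_iter, snd_node]

end Pool.Agent.H65.TS
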