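import Pool.Agent.H65.TS.Univ

set_option autoImplicit false

/-!
# If NP = coNP then there are complete search problems relative to all tally oracles
-/

namespace Pool.Agent.H65.TS

open Pool.Agent.H88.RO Pool.Agent.H88.RO.Tr

theorem snd_iter_enc (n : ℕ) (w : List Bool) : snd^[n] (enc w) = enc (w.drop n) := by
  induction n generalizing w with
  | zero => simp
  | succ n ih =>
    rw [Function.iterate_succ_apply]
    have e : snd (enc w) = enc w.tail := by cases w <;> rfl
    rw [e, ih, List.drop_tail]

theorem dropU_enc (a : Tr) (w : List Bool) : dropU a (enc w) = enc (w.drop (len a)) :=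
  snd_iter_enc _ _

theorem ex_cons {b : Bool} {y : List Bool} {C : Bool → List Bool → Prop} :
    (∃ b' y', b :: y = b' :: y' ∧ C b' y') ↔ C b y := by
  constructor
  · rintro ⟨b', y', h, hC⟩
    rw [List.cons.injEq] at h
    rw [h.1, h.2]; exact hC
  · intro h; exact ⟨b, y, rfl, h⟩

theorem snd_enc (w : List Bool) : snd (enc w) = enc w.tail := by cases w <;> rfl

/-! ### the language -/

/-- `y` is accepted for the input coded by `u`, with the table of the oracle coded by `u` -/
def VU (B : List Bool → Bool) (u y : List Bool) : Prop :=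
  Usol (join (tab (enc (zx u))) B) (zi u) (zK u) (zN u) ((zx u).drop (zK u + 1)) y

/-- program for `VU` -/
def vuT (B : List Bool → Bool) (u y : Tr) : Tr :=
  usT (join (tab (tx u)) B) (ti u) (tK u) (tN u) (dropU (node leaf (tK u)) (tx u)) y

theorem vuT_spec (B : List Bool → Bool) (u y : List Bool) :
    vuT B (enc u) (enc y) ≠ leaf ↔ VU B u y := by
  rw [vuT, tx_enc, tK_enc, tN_enc, ti_enc, dropU_enc, usT_spec]
  simp only [len, len_num]
  rfl

theorem FP_vuT (B : List Bool → Bool) {F G : Tr → Tr} (hF : FP B F) (hG : FP B G) :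
    FP B (fun v => vuT B (F v) (G v)) := by
  have h1 := FP.usTab (FP.tx' hF) (FP.ti' hF) (FP.tK' hF) (FP.tN' hF)
    (FP.dropU' (FP.node' FP.leaf' (FP.tK' hF)) (FP.tx' hF)) hG
  exact h1

open Classical in
theorem inNP_VU (B : List Bool → Bool) : InNP B {u | ∃ y, VU B u y} := by
  refine ⟨fun u y => decide (VU B u y), Polynomial.X, ?_, fun u => ?_⟩
  · exact polyTimeRel_of_FP (FP_vuT B (FP.fst' FP.id') (FP.snd' FP.id')) (fun x y => by
      rw [fst_node, snd_node, vuT_spec, decide_eq_true_eq])
  · simp only [Set.mem_ofPred_eq, Polynomial.eval_X, decide_eq_true_eq]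
    constructor
    · rintro ⟨y, hy⟩
      refine ⟨y, ?_, hy⟩
      have h1 := hy.1
      have h2 := z_le u
      omega
    · rintro ⟨y, _, hy⟩; exact ⟨y, hy⟩

/-! ### adding the table -/

/-- the instance with the table of the oracle -/
def addTab (A : List Bool → Bool) (z : List Bool) : List Bool :=
  ins (zK z) (zN z) (zi z) (seg A 0 (zK z + 1) ++ zx z)

/-- program for `addTab` -/
def addTabT (O : List Bool → Bool) (z : Tr) : Tr :=
  insT (tK z) (tN z) (ti z) (rd O (node leaf (tK z)) (onesPre (node leaf (tK z)) leaf) (tx z))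

theorem addTabT_eq (A B : List Bool → Bool) (z : List Bool) :
    addTabT (join A B) (enc z) = enc (addTab A z) := by
  have e1 : onesPre (node leaf (num (zK z))) leaf =
      enc (List.replicate (0 + len (node leaf (num (zK z)))) true) := by
    have := onesPre_enc (node leaf (num (zK z))) []
    rw [List.append_nil] at this
    rw [zero_add]
    exact this
  rw [addTabT, tK_enc, tN_enc, ti_enc, tx_enc, e1, rd_eq, insT_eq, addTab]
  simp only [len, len_num]

theorem FP_addTabT {O : List Bool → Bool} {F : Tr → Tr} (hF : FP O F) :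
    FP O (fun v => addTabT O (F v)) := by
  unfold addTabT
  have h1 := FP.node' (FP.leaf' (O := O)) (FP.tK' hF)
  exact FP.insT' (FP.tK' hF) (FP.tN' hF) (FP.ti' hF)
    (FP.rd' h1 (FP.onesPre' h1 FP.leaf') (FP.tx' hF))

theorem addTab_length (A : List Bool → Bool) (z : List Bool) :
    (addTab A z).length ≤ 2 * z.length + 4 := by
  have := z_le z
  rw [addTab, ins_length, List.length_append, seg_length]
  omega

theorem getD_seg (A : List Bool → Bool) (c : ℕ) (l : List Bool) (n : ℕ) (hn : n < c) :
    (seg A 0 c ++ l).getD n false = A (List.replicate n true) := by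
  rw [List.getD_eq_getElem?_getD, List.getElem?_append_left (by simpa using hn)]
  simp [seg, hn]

/-- a table of the tally oracle `A` up to length `K` is as good as the oracle, up to length
`K` -/
theorem join_tab_seg {A : List Bool → Bool} (hA : Tally A) (B : List Bool → Bool) (K : ℕ)
    (l : List Bool) (q : List Bool) (hq : q.length ≤ K) :
    join (tab (enc (seg A 0 (K + 1) ++ l))) B q = join A B q := by
  cases q with
  | nil => rfl
  | cons b q =>
    cases b with
    | true => rfl
    | false =>
      have h1 : tab (enc (seg A 0 (K + 1) ++ l)) q = A q := by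
        rw [tab_eq]
        conv_rhs => rw [tally_eq_tal hA]
        apply tal_congr
        rw [List.length_cons] at hq
        exact getD_seg A (K + 1) l q.length (by omega)
      exact h1

theorem VU_addTab {A : List Bool → Bool} (hA : Tally A) (B : List Bool → Bool)
    (z y : List Bool) :
    VU B (addTab A z) y ↔ Usol (join A B) (zi z) (zK z) (zN z) (zx z) y := by
  unfold VU addTab
  rw [zK_ins, zN_ins, zi_ins, zx_ins, Usol_congr (join_tab_seg hA B (zK z) (zx z))]
  have e : (seg A 0 (zK z + 1) ++ zx z).drop (zK z + 1) = zx z := by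
    rw [List.drop_left' (by simp)]
  rw [e]

/-! ### the complete problem -/

/-- the relation of the complete problem -/
def RT (A B : List Bool → Bool) (Rc : List Bool → List Bool → Bool) (pc : Polynomial ℕ)
    (z y : List Bool) : Prop :=
  ∃ b y', y = b :: y' ∧ ((b = false ∧ Usol (join A B) (zi z) (zK z) (zN z) (zx z) y') ∨
    (b = true ∧ y'.length ≤ pc.eval (addTab A z).length ∧ Rc (addTab A z) y' = true))

open Classical in
theorem polyTime_RT (A B : List Bool → Bool) {Rc : List Bool → List Bool → Bool}
    (hRc : PolyTimeRel B Rc) (pc : Polynomial ℕ) :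
    PolyTimeRel (join A B) (fun z y => decide (RT A B Rc pc z y)) := by
  obtain ⟨P, hP1, hP2⟩ := exists_polyT pc
  have hR : PolyTimeRel (join A B) Rc := PolyTimeRel.lift' hRc
  have hz : FP (join A B) (fun v => fst v) := FP.fst' FP.id'
  have hy : FP (join A B) (fun v => snd v) := FP.snd' FP.id'
  have ha := FP_addTabT hz
  have hF : FP (join A B) (fun v => cs (snd v) leaf (cs (fst (snd v))
      (usT (join A B) (ti (fst v)) (tK (fst v)) (tN (fst v)) (tx (fst v)) (snd (snd v)))
      (cs (dropU (P (addTabT (join A B) (fst v))) (snd (snd v)))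
        (bit (Rc (dec (addTabT (join A B) (fst v))) (dec (snd (snd v))))) leaf))) :=
    FP.cs' hy FP.leaf' (FP.cs' (FP.fst' hy)
      (FP.usT' (FP.ti' hz) (FP.tK' hz) (FP.tN' hz) (FP.tx' hz) (FP.snd' hy))
      (FP.cs' (FP.dropU' (hP2 _ _ ha) (FP.snd' hy)) (FP.rel hR ha (FP.snd' hy)) FP.leaf'))
  refine polyTimeRel_of_FP hF (fun z y => ?_)
  rw [decide_eq_true_eq]
  unfold RT
  simp only [fst_node, snd_node]
  cases y with
  | nil => simp [enc]
  | cons b y =>
    rw [cs_neg _ _ (by simp [enc])]
    have e1 : fst (enc (b :: y)) = bit b := rfl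
    have e2 : snd (enc (b :: y)) = enc y := rfl
    rw [e1, e2, ex_cons]
    cases b with
    | false =>
      rw [bit_false, cs_leaf, ti_enc, tK_enc, tN_enc, tx_enc, usT_spec]
      simp [len_num]
    | true =>
      rw [bit_true, cs_tt, addTabT_eq]
      simp only [Bool.true_eq_false, false_and, true_and, false_or, dec_enc]
      by_cases h : y.length ≤ pc.eval (addTab A z).length
      · rw [cs_pos _ _ (by rw [dropU_eq_leaf, hP1, len_num, len_enc, len_enc]; exact h),
          bit_ne_leaf]
        simp [h]
      · rw [cs_neg _ _ (by rw [ne_eq, dropU_eq_leaf, hP1, len_num, len_enc, len_enc]; exact h)]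
        simp [h]

open Classical in
/-- If NP is closed under complements relative to `B`, then there is a complete total NP search
problem relative to `B` and any tally oracle. -/
theorem complete_of_closed {A : List Bool → Bool} (hA : Tally A) (B : List Bool → Bool)
    (h : ∀ L, InNP B L → InNP B Lᶜ) : ∃ T : TFNP (join A B), T.IsComplete := by
  obtain ⟨Rc, pc, hRc, hc⟩ := h _ (inNP_VU B)
  let T : TFNP (join A B) :=
    { R := fun z y => decide (RT A B Rc pc z y)
      p := Polynomial.X + pc.comp (2 * Polynomial.X + 4) + 1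
      polyTime := polyTime_RT A B hRc pc
      total := by
        intro z
        simp only [decide_eq_true_eq, Polynomial.eval_add, Polynomial.eval_X,
          Polynomial.eval_comp, Polynomial.eval_mul, Polynomial.eval_ofNat, Polynomial.eval_one]
        by_cases hz : ∃ y, Usol (join A B) (zi z) (zK z) (zN z) (zx z) y
        · obtain ⟨y, hy⟩ := hz
          refine ⟨false :: y, ?_, false, y, rfl, Or.inl ⟨rfl, hy⟩⟩
          have h1 := hy.1
          have h2 := z_le z
          rw [List.length_cons]
          omega
        · have h1 : addTab A z ∈ {u | ∃ y, VU B u y}ᶜ := by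
            rw [Set.mem_compl_iff, Set.mem_ofPred_eq]
            rintro ⟨y, hy⟩
            exact hz ⟨y, (VU_addTab hA B z y).mp hy⟩
          obtain ⟨y, hy1, hy2⟩ := (hc _).mp h1
          refine ⟨true :: y, ?_, true, y, rfl, Or.inr ⟨rfl, hy1, hy2⟩⟩
          have h3 := poly_mono pc (addTab_length A z)
          rw [List.length_cons]
          omega }
  refine ⟨T, fun S => ?_⟩
  obtain ⟨i, k, n, hS⟩ := exists_index S
  refine ⟨fun x => ins (k.eval x.length) (n.eval x.length) i x, fun _ y => y.tail,
    polyTimeFun_ins i k n, ?_, fun x y hy => ?_⟩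
  · exact polyTimeFun₂_of_FP (F := fun v => snd (snd v)) (FP.snd' (FP.snd' FP.id'))
      (fun x y => by rw [snd_node, snd_enc])
  · have h1 : RT A B Rc pc (ins (k.eval x.length) (n.eval x.length) i x) y :=
      of_decide_eq_true hy.2
    obtain ⟨b, y', rfl, h2⟩ := h1
    show S.IsSol x y'
    rcases h2 with ⟨_, h2⟩ | ⟨_, h2, h3⟩
    · rw [zi_ins, zK_ins, zN_ins, zx_ins] at h2
      exact (hS x y').mp h2
    · exfalso
      have h4 := (hc _).mpr ⟨y', h2, h3⟩
      rw [Set.mem_compl_iff, Set.mem_ofPred_eq] at h4
      obtain ⟨y0, hy0⟩ := S.total x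
      apply h4
      refine ⟨y0, (VU_addTab hA B _ y0).mpr ?_⟩
      rw [zi_ins, zK_ins, zN_ins, zx_ins]
      exact (hS x y0).mpr hy0

end Pool.Agent.H65.TS
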