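import Pool.Agent.H65.TS.Par

set_option autoImplicit false

/-!
# Numbered machines and their instances
-/

namespace Pool.Agent.H65.TS

open Pool.Agent.H88.RO Pool.Agent.H88.RO.Tr

variable {O : List Bool → Bool}

theorem bit_ne_leaf {b : Bool} : bit b ≠ leaf ↔ b = true := by cases b <;> simp [bit]

/-! ### a total parsing function -/

theorem parse_ones (m : ℕ) (v : List Bool) :
    parse (List.replicate m true ++ false :: v) = some (m, v) := by
  induction m with
  | zero => simp [parse]
  | succ m ih => simp [List.replicate_succ, parse, ih]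

theorem parse_some {x : List Bool} {m : ℕ} {v : List Bool} (h : parse x = some (m, v)) :
    x = List.replicate m true ++ false :: v := by
  induction x generalizing m with
  | nil => simp [parse] at h
  | cons b x ih =>
    cases b with
    | false =>
      simp only [parse, Option.some.injEq, Prod.mk.injEq] at h
      obtain ⟨rfl, rfl⟩ := h
      simp
    | true =>
      simp only [parse, Option.map_eq_some_iff, Prod.mk.injEq] at h
      obtain ⟨⟨m', v'⟩, h1, h2, h3⟩ := h
      simp only at h2 h3
      subst h2 h3
      rw [ih h1]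
      simp [List.replicate_succ]

/-- strip the leading ones up to the first zero -/
def prs (z : List Bool) : ℕ × List Bool :=
  match parse z with
  | none => (z.length, [])
  | some p => p

theorem prs_ones (m : ℕ) (v : List Bool) :
    prs (List.replicate m true ++ false :: v) = (m, v) := by
  rw [prs, parse_ones]

theorem prs_le (z : List Bool) : (prs z).1 + (prs z).2.length ≤ z.length := by
  unfold prs
  rcases h : parse z with _ | ⟨m, v⟩
  · simp
  · have := parse_some h
    rw [this]
    simp

theorem fst_parseT (z : List Bool) : fst (parseT (enc z)) = num (prs z).1 := by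
  rw [parseT_enc, prs]
  rcases parse z with _ | ⟨m, v⟩ <;> rfl

theorem snd_parseT (z : List Bool) : fst (snd (parseT (enc z))) = enc (prs z).2 := by
  rw [parseT_enc, prs]
  rcases parse z with _ | ⟨m, v⟩ <;> rfl

/-! ### numbered machines -/

/-- machine number `i` -/
def mach (i : ℕ) : Tr := decode (sc^[i] [])

theorem mach_sval (c : Tr) : mach (sval (rpn c)) = c := by
  rw [mach, sc_iter_sval]
  simpa using decode_pad 0 c

/-- machine number `len i` -/
def machT (i : Tr) : Tr := decodeT (succT^[len i] leaf)

theorem succT_iter (n : ℕ) : succT^[n] leaf = enc (sc^[n] []) := by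
  induction n with
  | zero => rfl
  | succ n ih => rw [Function.iterate_succ_apply', ih, succT_enc, Function.iterate_succ_apply']

@[simp] theorem machT_eq (i : Tr) : machT i = mach (len i) := by
  rw [machT, succT_iter, decodeT_enc, mach]

theorem FP.machT' {F : Tr → Tr} (hF : FP O F) : FP O (fun v => machT (F v)) := by
  refine FP.decodeT' (FP.iterate' (F := fun s => succT s) (FP.succT' FP.id') hF FP.leaf'
    ⟨4 * Polynomial.X + 5, fun n x i hi => ?_⟩)
  have h1 : ∀ i, len (succT^[i] x) ≤ len x + i := by
    intro i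
    induction i with
    | zero => simp
    | succ i ih =>
      rw [Function.iterate_succ_apply']
      have := len_succT_le (succT^[i] x)
      omega
  simp only [Polynomial.eval_add, Polynomial.eval_mul, Polynomial.eval_ofNat, Polynomial.eval_X]
  cases i with
  | zero => simp; omega
  | succ i =>
    have h2 : (fun s => succT s)^[i + 1] x = succT (succT^[i] x) := by
      rw [Function.iterate_succ_apply']
    rw [h2]
    have h3 := size_succT_le (succT^[i] x)
    have h4 := h1 i
    have h5 := len_le_size n
    have h6 := len_le_size x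
    omega

/-- `y` is accepted by machine number `i`, with clock `K` and length bound `N`, as a solution
of `x` -/
def Usol (O : List Bool → Bool) (i K N : ℕ) (x y : List Bool) : Prop :=
  y.length ≤ N ∧ snd (U O (mach i) (node (enc x) (enc y)) K) ≠ leaf

/-- `Usol` depends only on the oracle up to length `K` -/
theorem Usol_congr {O O' : List Bool → Bool} {i K N : ℕ} {x y : List Bool}
    (h : ∀ q : List Bool, q.length ≤ K → O' q = O q) : Usol O' i K N x y ↔ Usol O i K N x y := by
  rw [Usol, Usol, U_local' _ _ _ h]

/-- every total search problem is given by a numbered machine, with a polynomial clock and a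
polynomial length bound -/
theorem exists_index (S : TFNP O) : ∃ (i : ℕ) (k n : Polynomial ℕ), ∀ x y,
    Usol O i (k.eval x.length) (n.eval x.length) x y ↔ S.IsSol x y := by
  obtain ⟨c, q, hc⟩ := S.polyTime
  refine ⟨sval (rpn (code c)), Polynomial.C (size (code c) + 10) * q.comp (Polynomial.X + S.p) +
    10, S.p, fun x y => ?_⟩
  unfold Usol TFNP.IsSol
  rw [mach_sval]
  refine and_congr_right fun hy => ?_
  obtain ⟨t, ht, he⟩ := hc x y
  rw [U_eq he]
  · rw [snd_node, bit_ne_leaf]
  · simp only [Polynomial.eval_add, Polynomial.eval_mul, Polynomial.eval_C,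
      Polynomial.eval_comp, Polynomial.eval_X, Polynomial.eval_ofNat]
    have h1 : q.eval (x.length + y.length) ≤ q.eval (x.length + S.p.eval x.length) :=
      poly_mono q (by omega)
    exact Nat.add_le_add_right (Nat.mul_le_mul_left _ (ht.trans h1)) _

/-! ### instances `1^K 0 1^N 0 1^i 0 x` -/

/-- the instance `1^K 0 1^N 0 1^i 0 x` -/
def ins (K N i : ℕ) (x : List Bool) : List Bool :=
  List.replicate K true ++ false :: (List.replicate N true ++ false ::
    (List.replicate i true ++ false :: x))

theorem ins_length (K N i : ℕ) (x : List Bool) : (ins K N i x).length = K + N + i + x.length + 3 := by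
  simp [ins]; ring

/-- the clock -/
def zK (z : List Bool) : ℕ := (prs z).1
/-- the length bound -/
def zN (z : List Bool) : ℕ := (prs (prs z).2).1
/-- the number of the machine -/
def zi (z : List Bool) : ℕ := (prs (prs (prs z).2).2).1
/-- the input -/
def zx (z : List Bool) : List Bool := (prs (prs (prs z).2).2).2

theorem z_le (z : List Bool) : zK z + zN z + zi z + (zx z).length ≤ z.length := by
  have h1 := prs_le z
  have h2 := prs_le (prs z).2
  have h3 := prs_le (prs (prs z).2).2
  unfold zK zN zi zx
  omega

@[simp] theorem zK_ins (K N i : ℕ) (x : List Bool) : zK (ins K N i x) = K := by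
  simp [zK, ins, prs_ones]
@[simp] theorem zN_ins (K N i : ℕ) (x : List Bool) : zN (ins K N i x) = N := by
  simp [zN, ins, prs_ones]
@[simp] theorem zi_ins (K N i : ℕ) (x : List Bool) : zi (ins K N i x) = i := by
  simp [zi, ins, prs_ones]
@[simp] theorem zx_ins (K N i : ℕ) (x : List Bool) : zx (ins K N i x) = x := by
  simp [zx, ins, prs_ones]

/-- program for `zK` -/
def tK (z : Tr) : Tr := fst (parseT z)
/-- program for `zN` -/
def tN (z : Tr) : Tr := fst (parseT (fst (snd (parseT z))))
/-- program for `zi` -/
def ti (z : Tr) : Tr := fst (parseT (fst (snd (parseT (fst (snd (parseT z)))))))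
/-- program for `zx` -/
def tx (z : Tr) : Tr := fst (snd (parseT (fst (snd (parseT (fst (snd (parseT z))))))))

@[simp] theorem tK_enc (z : List Bool) : tK (enc z) = num (zK z) := by
  rw [tK, fst_parseT, zK]
@[simp] theorem tN_enc (z : List Bool) : tN (enc z) = num (zN z) := by
  rw [tN, snd_parseT, fst_parseT, zN]
@[simp] theorem ti_enc (z : List Bool) : ti (enc z) = num (zi z) := by
  rw [ti, snd_parseT, snd_parseT, fst_parseT, zi]
@[simp] theorem tx_enc (z : List Bool) : tx (enc z) = enc (zx z) := by
  rw [tx, snd_parseT, snd_parseT, snd_parseT, zx]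

theorem FP.tK' {F : Tr → Tr} (hF : FP O F) : FP O (fun v => tK (F v)) :=
  FP.fst' (FP.parseT' hF)
theorem FP.tN' {F : Tr → Tr} (hF : FP O F) : FP O (fun v => tN (F v)) :=
  FP.fst' (FP.parseT' (FP.fst' (FP.snd' (FP.parseT' hF))))
theorem FP.ti' {F : Tr → Tr} (hF : FP O F) : FP O (fun v => ti (F v)) :=
  FP.fst' (FP.parseT' (FP.fst' (FP.snd' (FP.parseT' (FP.fst' (FP.snd' (FP.parseT' hF)))))))
theorem FP.tx' {F : Tr → Tr} (hF : FP O F) : FP O (fun v => tx (F v)) :=
  FP.fst' (FP.snd' (FP.parseT' (FP.fst' (FP.snd' (FP.parseT' (FP.fst' (FP.snd'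
    (FP.parseT' hF))))))))

/-- program for `ins` -/
def insT (K N i x : Tr) : Tr :=
  onesPre K (node leaf (onesPre N (node leaf (onesPre i (node leaf x)))))

theorem insT_eq (K N i : Tr) (x : List Bool) :
    insT K N i (enc x) = enc (ins (len K) (len N) (len i) x) := by
  have e1 : ∀ v : List Bool, node leaf (enc v) = enc (false :: v) := fun v => rfl
  rw [insT, e1, onesPre_enc, e1, onesPre_enc, e1, onesPre_enc, ins]

theorem FP.insT' {F G H J : Tr → Tr} (hF : FP O F) (hG : FP O G) (hH : FP O H) (hJ : FP O J) :
    FP O (fun v => insT (F v) (G v) (H v) (J v)) :=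
  FP.onesPre' hF (FP.node' FP.leaf' (FP.onesPre' hG (FP.node' FP.leaf' (FP.onesPre' hH
    (FP.node' FP.leaf' hJ)))))

/-- the reduction to instances of the numbered machines -/
theorem polyTimeFun_ins (i : ℕ) (k n : Polynomial ℕ) :
    PolyTimeFun O (fun x => ins (k.eval x.length) (n.eval x.length) i x) := by
  obtain ⟨Pk, hk1, hk2⟩ := exists_polyT k
  obtain ⟨Pn, hn1, hn2⟩ := exists_polyT n
  refine polyTimeFun_of_FP (F := fun v => insT (Pk v) (Pn v) (num i) v)
    (FP.insT' (hk2 _ _ FP.id') (hn2 _ _ FP.id') (FP.const' _) FP.id') (fun x => ?_)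
  rw [insT_eq, hk1, hn1, len_num, len_num, len_num, len_enc]

/-- test for `Usol` with a parametrised oracle -/
def usT (O : List Bool → Bool) (i K N x y : Tr) : Tr :=
  cs (dropU N y) (snd (U O (machT i) (node x y) (len K))) leaf

theorem usT_spec (i K N : Tr) (x y : List Bool) :
    usT O i K N (enc x) (enc y) ≠ leaf ↔ Usol O (len i) (len K) (len N) x y := by
  unfold usT Usol
  rw [machT_eq]
  by_cases h : y.length ≤ len N
  · rw [cs_pos _ _ (by rw [dropU_eq_leaf, len_enc]; exact h)]
    simp [h]
  · rw [cs_neg _ _ (by rw [ne_eq, dropU_eq_leaf, len_enc]; exact h)]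
    simp [h]

theorem FP.usΩ {Ω : Tr → List Bool → Bool} (hΩ : FPO O Ω) {E F G H X Y : Tr → Tr} (hE : FP O E)
    (hF : FP O F) (hG : FP O G) (hH : FP O H) (hX : FP O X) (hY : FP O Y) :
    FP O (fun v => usT (Ω (E v)) (F v) (G v) (H v) (X v) (Y v)) := by
  have h1 := FP.UΩ (Ω := Ω) hΩ hE (FP.machT' hF) (FP.node' hX hY) hG
  have h2 := FP.cs' (FP.dropU' hH hY) (FP.snd' h1) FP.leaf'
  exact h2

theorem FP.usTab {B : List Bool → Bool} {E F G H X Y : Tr → Tr} (hE : FP B E)
    (hF : FP B F) (hG : FP B G) (hH : FP B H) (hX : FP B X) (hY : FP B Y) :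
    FP B (fun v => usT (join (tab (E v)) B) (F v) (G v) (H v) (X v) (Y v)) := by
  have h1 := FP.UTab hE (FP.machT' hF) (FP.node' hX hY) hG
  have h2 := FP.cs' (FP.dropU' hH hY) (FP.snd' h1) FP.leaf'
  exact h2

theorem FP.usT' {F G H X Y : Tr → Tr}
    (hF : FP O F) (hG : FP O G) (hH : FP O H) (hX : FP O X) (hY : FP O Y) :
    FP O (fun v => usT O (F v) (G v) (H v) (X v) (Y v)) := by
  unfold usT
  exact FP.cs' (FP.dropU' hH hY) (FP.snd' (FP.U' (FP.machT' hF) (FP.node' hX hY) hG)) FP.leaf'

end Pool.Agent.H65.TS
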